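import Pool.Agent.H33.CB.Ex.Data

namespace Cub.Ex

def kb (x : Nat) : Bool := Nat.beq (get TK 1 1 (ix x)) 1

def inf (x : Nat) : Nat := get TI 5 31 (ix x)

def rk (x : Nat) : Nat := get TR 13 8191 (ix x)

/-- Table of the exponents. -/
def tA (m d : Nat) : Nat := get TA 2 3 (Nat.add (Nat.mul m 8) d)

/-- transport exponent of the cell with code `x` to its facet in direction `d` (`d'` opposite) -/
def av (x d d' : Nat) : Nat :=
  cond (Nat.blt 37264 x) (tA (Nat.sub x 37264) d) (tA (Nat.sub 37264 x) d')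

/-- normalisation of a direction stored in the table -/
def nd (x v : Nat) : Nat := cond (Nat.blt 37264 x) v (op v)

/-- flatness for one pair of directions: `d`, `d'` the first direction and its opposite, `e`, `e'` the second -/
def fl (x d d' e e' : Nat) : Bool :=
  or (kb (sh (sh x d) e))
    (Nat.beq (Nat.mod (Nat.add (av x d d') (av (sh x d) e e')) 3)
      (Nat.mod (Nat.add (av x e e') (av (sh x e) d d')) 3))

def fl4 (x a b c e : Nat) : Bool :=
  and (and (fl x a b c e) (fl x b a c e)) (and (fl x a b e c) (fl x b a e c))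

def imp (a b : Bool) : Bool := cond a b true

def chkFlat (k0 k1 k2 k3 x : Nat) : Bool :=
  and (and (imp (and (odd k0) (odd k1)) (fl4 x 0 1 2 3)) (and (imp (and (odd k0) (odd k2)) (fl4 x 0 1 4 5))
    (imp (and (odd k0) (odd k3)) (fl4 x 0 1 6 7)))) (and (imp (and (odd k1) (odd k2)) (fl4 x 2 3 4 5))
    (and (imp (and (odd k1) (odd k3)) (fl4 x 2 3 6 7)) (imp (and (odd k2) (odd k3)) (fl4 x 4 5 6 7))))

def code (k0 k1 k2 k3 : Nat) : Nat :=
  Nat.add (Nat.add (Nat.mul k0 3549) (Nat.mul k1 169)) (Nat.add (Nat.mul k2 13) k3)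

/-- run a check over all cells of the boundary with positive code which are not in `K` -/
def run (f : Nat → Nat → Nat → Nat → Nat → Bool) : Bool :=
  allN 21 fun k0 => allN 21 fun k1 => allN 13 fun k2 => allN 13 fun k3 =>
    imp (and (and (Nat.blt 37264 (code k0 k1 k2 k3)) (isbd k0 k1 k2 k3)) (not (kb (code k0 k1 k2 k3))))
      (f k0 k1 k2 k3 (code k0 k1 k2 k3))

/-- an extremal coordinate different from the one of the direction `d` -/
def exO (k0 k1 k2 k3 : Nat) : Nat → Bool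
  | 0 => or (exA k1) (or (exB k2) (exB k3))
  | 1 => or (exA k1) (or (exB k2) (exB k3))
  | 2 => or (exA k0) (or (exB k2) (exB k3))
  | 3 => or (exA k0) (or (exB k2) (exB k3))
  | 4 => or (exA k0) (or (exA k1) (exB k3))
  | 5 => or (exA k0) (or (exA k1) (exB k3))
  | 6 => or (exA k0) (or (exA k1) (exB k2))
  | _ => or (exA k0) (or (exA k1) (exB k2))

/-- the neighbour in the direction `d` is in the box -/
def rng (k0 k1 k2 k3 : Nat) : Nat → Bool
  | 0 => Nat.blt 0 k0
  | 1 => Nat.blt k0 20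
  | 2 => Nat.blt 0 k1
  | 3 => Nat.blt k1 20
  | 4 => Nat.blt 0 k2
  | 5 => Nat.blt k2 12
  | 6 => Nat.blt 0 k3
  | _ => Nat.blt k3 12

/-- codes of the critical cells -/
def ccode : Nat → Nat
  | 0 => 72621
  | 1 => 72768
  | 2 => 60418
  | 3 => 47410
  | 4 => 51197
  | 5 => 65117
  | _ => 0

/-- table of the critical chains: three pairs of five bit numbers -/
def Vx (x : Nat) : Nat := get TV 30 1073741823 (ix x)

def vcrit : Nat → Nat
  | 0 => 1
  | 1 => 1
  | 2 => 1024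
  | 3 => 1048576
  | 4 => 1
  | 5 => 1024
  | _ => 0

/-- source cells: `x` with the facet in the direction `d` -/
def chkS (k0 k1 k2 k3 x d : Nat) : Bool :=
  and (odd (kk k0 k1 k2 k3 d))
    (and (not (kb (sh x d))) (Nat.beq (inf (sh x d)) (Nat.add 8 (nd (sh x d) (op d)))))

/-- target cells: `x` with the coface in the direction `d` -/
def chkT (k0 k1 k2 k3 x d : Nat) : Bool :=
  and (and (not (odd (kk k0 k1 k2 k3 d))) (and (rng k0 k1 k2 k3 d) (exO k0 k1 k2 k3 d)))
    (and (Nat.beq (inf (sh x d)) (nd (sh x d) (op d))) (and (Nat.beq (Vx x) 0) (not (kb (sh x d)))))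

def chkC (x j : Nat) : Bool := and (Nat.blt j 6) (and (Nat.beq x (ccode j)) (Nat.beq (Vx x) (vcrit j)))

def chkM (k0 k1 k2 k3 x : Nat) : Bool :=
  cond (Nat.blt (inf x) 8) (chkS k0 k1 k2 k3 x (inf x))
    (cond (Nat.blt (inf x) 16) (chkT k0 k1 k2 k3 x (Nat.sub (inf x) 8)) (chkC x (Nat.sub (inf x) 16)))

def chkR1 (x d : Nat) : Bool :=
  or (kb (sh x d))
    (imp (and (Nat.ble 8 (inf (sh x d))) (Nat.blt (inf (sh x d)) 16))
      (or (Nat.blt (rk (sh (sh x d) (nd (sh x d) (Nat.sub (inf (sh x d)) 8)))) (rk x))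
        (Nat.beq (sh (sh x d) (nd (sh x d) (Nat.sub (inf (sh x d)) 8))) x)))

def chkR (k0 k1 k2 k3 x : Nat) : Bool :=
  imp (Nat.blt (inf x) 8)
    (and (and (imp (odd k0) (and (chkR1 x 0) (chkR1 x 1))) (imp (odd k1) (and (chkR1 x 2) (chkR1 x 3))))
      (and (imp (odd k2) (and (chkR1 x 4) (chkR1 x 5))) (imp (odd k3) (and (chkR1 x 6) (chkR1 x 7)))))

/-- the chains vanish outside the boundary and on the knot -/
def chkZ (k0 k1 k2 k3 : Nat) : Bool :=
  or (and (isbd k0 k1 k2 k3) (not (kb (code k0 k1 k2 k3)))) (Nat.beq (Vx (code k0 k1 k2 k3)) 0)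

def runZ : Bool := allN 21 fun k0 => allN 21 fun k1 => allN 13 fun k2 => allN 13 fun k3 =>
  imp (Nat.blt 37263 (code k0 k1 k2 k3)) (chkZ k0 k1 k2 k3)

def ti (v : Nat) : Int := cond (Nat.blt v 16) (Int.ofNat v) (Int.negSucc (Nat.sub 31 v))

def slot (s v : Nat) : Int × Int :=
  (ti (Nat.land (Nat.shiftRight v (Nat.mul 10 s)) 31),
    ti (Nat.land (Nat.shiftRight v (Nat.add (Nat.mul 10 s) 5)) 31))

def addp (p q : Int × Int) : Int × Int := (p.1 + q.1, p.2 + q.2)
def negp (p : Int × Int) : Int × Int := (-p.1, -p.2)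
def mulp (a p : Int × Int) : Int × Int := (a.1 * p.1 - a.2 * p.2, a.1 * p.2 + a.2 * p.1 - a.2 * p.2)

/-- multiplication by a power of the root of unity -/
def rot (k : Nat) (p : Int × Int) : Int × Int :=
  match k with
  | 0 => p
  | 1 => (-p.2, p.1 - p.2)
  | 2 => (p.2 - p.1, -p.1)
  | _ => p

def term (s y d d' : Nat) : Int × Int :=
  cond (Nat.beq (Vx y) 0) (0, 0) (rot (av y d d') (slot s (Vx y)))

def two (s k l x d d' : Nat) : Int × Int :=
  cond (odd k) (0, 0)
    (addp (cond (Nat.blt k l) (term s (sh x d') d d') (0, 0))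
      (cond (Nat.blt 0 k) (term s (sh x d) d' d) (0, 0)))

def sgb (b : Bool) (p : Int × Int) : Int × Int := cond b (negp p) p

def lhs (s k0 k1 k2 k3 x : Nat) : Int × Int :=
  addp (addp (two s k0 20 x 0 1) (sgb (odd k0) (two s k1 20 x 2 3)))
    (addp (sgb (xor (odd k0) (odd k1)) (two s k2 12 x 4 5))
      (sgb (xor (xor (odd k0) (odd k1)) (odd k2)) (two s k3 12 x 6 7)))

/-- the small complex: the critical cells are one cell of dimension three (0), three of dimension two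
(1, 2, 3), two of dimension one (4, 5) -/
def dp : Nat → Nat → Int × Int
  | 0, 1 => (-1, 1)
  | 0, 2 => (1, -1)
  | 0, 3 => (-2, -1)
  | 1, 4 => (0, -5)
  | 1, 5 => (2, -2)
  | 2, 4 => (0, -5)
  | 2, 5 => (4, 0)
  | 3, 5 => (2, 0)
  | _, _ => (0, 0)

def eqp (p q : Int × Int) : Bool := and (decide (p.1 = q.1)) (decide (p.2 = q.2))

def nodd (k0 k1 k2 k3 : Nat) : Nat :=
  Nat.add (Nat.add (Nat.land k0 1) (Nat.land k1 1)) (Nat.add (Nat.land k2 1) (Nat.land k3 1))

def rhs1 (j x : Nat) : Int × Int :=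
  addp (mulp (dp j 4) (slot 0 (Vx x))) (mulp (dp j 5) (slot 1 (Vx x)))

def rhs2 (j x : Nat) : Int × Int :=
  addp (mulp (dp j 1) (slot 0 (Vx x))) (addp (mulp (dp j 2) (slot 1 (Vx x))) (mulp (dp j 3) (slot 2 (Vx x))))

def chkV (k0 k1 k2 k3 x : Nat) : Bool :=
  match nodd k0 k1 k2 k3 with
  | 0 => and (eqp (lhs 0 k0 k1 k2 k3 x) (0, 0)) (eqp (lhs 1 k0 k1 k2 k3 x) (0, 0))
  | 1 => and (eqp (lhs 0 k0 k1 k2 k3 x) (rhs1 1 x)) (and (eqp (lhs 1 k0 k1 k2 k3 x) (rhs1 2 x))
      (eqp (lhs 2 k0 k1 k2 k3 x) (rhs1 3 x)))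
  | 2 => eqp (lhs 0 k0 k1 k2 k3 x) (rhs2 0 x)
  | _ => true

end Cub.Ex
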