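import Pool.Agent.H33.CB.Ex.Knot
import Pool.Agent.H33.CB.Ex.Chk
import Pool.Agent.H33.CB.CxD
import Pool.Agent.H33.CB.Quot

/-!
# Cells and codes
-/

namespace Cub.Ex

open Cub

theorem allN_spec {n : ℕ} {f : ℕ → Bool} (h : allN n f = true) : ∀ k < n, f k = true := by
  induction n with
  | zero => intro k hk; omega
  | succ n ih =>
    have h' : (f n && allN n f) = true := h
    rw [Bool.and_eq_true] at h'
    intro k hk
    rcases Nat.lt_succ_iff_lt_or_eq.1 hk with h1 | h1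
    · exact ih h'.2 k h1
    · rw [h1]; exact h'.1

theorem and_true' {a b : Bool} (h : and a b = true) : a = true ∧ b = true := by
  cases a <;> cases b <;> simp_all

theorem imp_true {a b : Bool} (h : imp a b = true) (ha : a = true) : b = true := by
  unfold imp at h
  rw [ha] at h
  exact h

theorem box_iff {c : Cell} : c ∈ Box n ↔ (-10 ≤ c 0 ∧ c 0 ≤ 10) ∧ (-10 ≤ c 1 ∧ c 1 ≤ 10) ∧
    (-6 ≤ c 2 ∧ c 2 ≤ 6) ∧ (-6 ≤ c 3 ∧ c 3 ≤ 6) := by
  rw [mem_box]
  constructor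
  · intro h
    have h0 := h 0
    have h1 := h 1
    have h2 := h 2
    have h3 := h 3
    simp [n] at h0 h1 h2 h3
    exact ⟨h0, h1, h2, h3⟩
  · rintro ⟨h0, h1, h2, h3⟩ i
    fin_cases i
    · simpa [n] using h0
    · simpa [n] using h1
    · simpa [n] using h2
    · simpa [n] using h3

theorem cd_neg (c : Cell) : cd (-c) = - cd c := by
  unfold cd
  simp only [Pi.neg_apply]
  ring

theorem cd_add (c d : Cell) : cd (c + d) = cd c + cd d := by
  unfold cd
  simp only [Pi.add_apply]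
  ring

/-- The vector of the direction `d`. -/
def dv : ℕ → Cell
  | 0 => -(e 0)
  | 1 => e 0
  | 2 => -(e 1)
  | 3 => e 1
  | 4 => -(e 2)
  | 5 => e 2
  | 6 => -(e 3)
  | _ => e 3

def wd : ℕ → ℤ
  | 0 => -3549
  | 1 => 3549
  | 2 => -169
  | 3 => 169
  | 4 => -13
  | 5 => 13
  | 6 => -1
  | _ => 1

/-- The coordinate of the direction `d`. -/
def ax : ℕ → Fin 4
  | 0 => 0
  | 1 => 0
  | 2 => 1
  | 3 => 1
  | 4 => 2
  | 5 => 2
  | 6 => 3
  | _ => 3

theorem cd_dv {d : ℕ} (hd : d < 8) : cd (dv d) = wd d := by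
  interval_cases d <;> simp [dv, wd, cd, e]

theorem dv_op {d : ℕ} (hd : d < 8) : dv (op d) = - dv d := by
  interval_cases d <;> simp [dv, op]

theorem op_op {d : ℕ} (hd : d < 8) : op (op d) = d := by
  interval_cases d <;> rfl

theorem op_lt {d : ℕ} : op d < 8 := by
  unfold op
  split <;> omega

theorem wd_op {d : ℕ} (hd : d < 8) : wd (op d) = - wd d := by
  interval_cases d <;> simp [wd, op]

theorem ax_op {d : ℕ} (hd : d < 8) : ax (op d) = ax d := by
  interval_cases d <;> rfl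

theorem exists_dir (i : Fin 4) {s : ℤ} (hs : s = 1 ∨ s = -1) :
    ∃ d < 8, s • e i = dv d ∧ ax d = i := by
  rcases hs with rfl | rfl
  · fin_cases i
    · exact ⟨1, by omega, by simp [dv], rfl⟩
    · exact ⟨3, by omega, by simp [dv], rfl⟩
    · exact ⟨5, by omega, by simp [dv], rfl⟩
    · exact ⟨7, by omega, by simp [dv], rfl⟩
  · fin_cases i
    · exact ⟨0, by omega, by simp [dv], rfl⟩
    · exact ⟨2, by omega, by simp [dv], rfl⟩
    · exact ⟨4, by omega, by simp [dv], rfl⟩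
    · exact ⟨6, by omega, by simp [dv], rfl⟩

theorem dv_eq {d : ℕ} (hd : d < 8) : ∃ s : ℤ, (s = 1 ∨ s = -1) ∧ dv d = s • e (ax d) := by
  interval_cases d
  · exact ⟨-1, Or.inr rfl, by simp [dv, ax]⟩
  · exact ⟨1, Or.inl rfl, by simp [dv, ax]⟩
  · exact ⟨-1, Or.inr rfl, by simp [dv, ax]⟩
  · exact ⟨1, Or.inl rfl, by simp [dv, ax]⟩
  · exact ⟨-1, Or.inr rfl, by simp [dv, ax]⟩
  · exact ⟨1, Or.inl rfl, by simp [dv, ax]⟩
  · exact ⟨-1, Or.inr rfl, by simp [dv, ax]⟩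
  · exact ⟨1, Or.inl rfl, by simp [dv, ax]⟩

/-- The code as a natural number. -/
def X (c : Cell) : ℕ := (cd c + 37264).toNat

theorem cd_bound {c : Cell} (hc : c ∈ Box n) : -37264 ≤ cd c ∧ cd c ≤ 37264 := by
  obtain ⟨h0, h1, h2, h3⟩ := box_iff.1 hc
  unfold cd
  omega

theorem X_cast {c : Cell} (hc : c ∈ Box n) : (X c : ℤ) = cd c + 37264 := by
  have := cd_bound hc
  unfold X
  omega

theorem sh_cast {x d : ℕ} (hd : d < 8) : (sh x d : ℤ) = max ((x : ℤ) + wd d) 0 := by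
  have h0 : sh x 0 = x - 3549 := rfl
  have h1 : sh x 1 = x + 3549 := rfl
  have h2 : sh x 2 = x - 169 := rfl
  have h3 : sh x 3 = x + 169 := rfl
  have h4 : sh x 4 = x - 13 := rfl
  have h5 : sh x 5 = x + 13 := rfl
  have h6 : sh x 6 = x - 1 := rfl
  have h7 : sh x 7 = x + 1 := rfl
  interval_cases d
  · rw [h0]; simp only [wd]; omega
  · rw [h1]; simp only [wd]; omega
  · rw [h2]; simp only [wd]; omega
  · rw [h3]; simp only [wd]; omega
  · rw [h4]; simp only [wd]; omega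
  · rw [h5]; simp only [wd]; omega
  · rw [h6]; simp only [wd]; omega
  · rw [h7]; simp only [wd]; omega

theorem X_dv {c : Cell} (hc : c ∈ Box n) {d : ℕ} (hd : d < 8) : X (c + dv d) = sh (X c) d := by
  have h := cd_bound hc
  have h1 := sh_cast (x := X c) hd
  have h2 := X_cast hc
  have h3 : (X (c + dv d) : ℤ) = max (cd c + wd d + 37264) 0 := by
    unfold X
    rw [cd_add, cd_dv hd]
    omega
  omega

theorem ix_X {c : Cell} (hc : c ∈ Box n) : ix (X c) = (cd c).natAbs := by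
  have h := X_cast hc
  have h1 : ix (X c) = (X c - 37264) + (37264 - X c) := rfl
  omega

theorem blt_X {c : Cell} (hc : c ∈ Box n) : Nat.blt 37264 (X c) = decide (0 < cd c) := by
  have h := X_cast hc
  rw [Bool.eq_iff_iff]
  simp only [Nat.blt_eq, decide_eq_true_eq]
  omega

theorem mem_K {c : Cell} (hc : c ∈ Box n) : c ∈ K ↔ kb (X c) = true := by
  unfold K kb
  rw [Finset.mem_filter, ix_X hc, Nat.beq_eq]
  exact ⟨fun h => h.2, fun h => ⟨hc, h⟩⟩

theorem K_sub {c : Cell} (hc : c ∈ K) : c ∈ Box n := (Finset.mem_filter.1 hc).1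

theorem box_neg {c : Cell} (hc : c ∈ Box n) : -c ∈ Box n := by
  rw [box_iff] at hc ⊢
  simp only [Pi.neg_apply]
  omega

theorem K_neg {c : Cell} (hc : c ∈ K) : -c ∈ K := by
  unfold K at hc ⊢
  rw [Finset.mem_filter] at hc ⊢
  rw [cd_neg, Int.natAbs_neg]
  exact ⟨box_neg hc.1, hc.2⟩

/-- The coordinates as natural numbers. -/
def q (c : Cell) : ℕ → ℕ
  | 0 => (c 0 + 10).toNat
  | 1 => (c 1 + 10).toNat
  | 2 => (c 2 + 6).toNat
  | _ => (c 3 + 6).toNat

theorem q_lt {c : Cell} (hc : c ∈ Box n) : q c 0 < 21 ∧ q c 1 < 21 ∧ q c 2 < 13 ∧ q c 3 < 13 := by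
  obtain ⟨h0, h1, h2, h3⟩ := box_iff.1 hc
  simp only [q]
  omega

theorem code_q {c : Cell} (hc : c ∈ Box n) : code (q c 0) (q c 1) (q c 2) (q c 3) = X c := by
  obtain ⟨h0, h1, h2, h3⟩ := box_iff.1 hc
  have h4 := X_cast hc
  have h5 : code (q c 0) (q c 1) (q c 2) (q c 3) =
    (q c 0 * 3549 + q c 1 * 169) + (q c 2 * 13 + q c 3) := rfl
  unfold cd at h4
  simp only [q] at h5 ⊢
  omega

theorem mem_bd' {c : Cell} : c ∈ bd n ↔ c ∈ Box n ∧ isbd (q c 0) (q c 1) (q c 2) (q c 3) = true := by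
  rw [mem_bd]
  refine and_congr_right fun hc => ?_
  obtain ⟨h0, h1, h2, h3⟩ := box_iff.1 hc
  simp only [isbd, exA, exB, q, Bool.or_eq_true, Nat.beq_eq, n]
  constructor
  · rintro ⟨i, hi⟩
    fin_cases i <;> simp at hi <;> omega
  · rintro ((h | h) | (h | h))
    · exact ⟨0, by simp; omega⟩
    · exact ⟨1, by simp; omega⟩
    · exact ⟨2, by simp; omega⟩
    · exact ⟨3, by simp; omega⟩

theorem odd_iff {k : ℕ} : odd k = true ↔ k % 2 = 1 := by
  unfold odd
  rw [Nat.beq_eq]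
  have : Nat.land k 1 = k % 2 := Nat.and_two_pow_sub_one_eq_mod k 1
  rw [this]

theorem odd_kk {c : Cell} (hc : c ∈ Box n) {d : ℕ} (hd : d < 8) :
    odd (kk (q c 0) (q c 1) (q c 2) (q c 3) d) = true ↔ c (ax d) % 2 = 1 := by
  obtain ⟨h0, h1, h2, h3⟩ := box_iff.1 hc
  rw [odd_iff]
  interval_cases d <;> simp only [kk, q, ax] <;> omega

/-- The set of cells. -/
noncomputable abbrev A0 : Finset Cell := bd n \ K

theorem mem_A0 {c : Cell} : c ∈ A0 ↔ c ∈ bd n ∧ c ∉ K := Finset.mem_sdiff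

theorem A0_box {c : Cell} (hc : c ∈ A0) : c ∈ Box n := (mem_bd'.1 (mem_A0.1 hc).1).1

theorem bd_neg {c : Cell} (hc : c ∈ bd n) : -c ∈ bd n := by
  rw [mem_bd] at hc ⊢
  obtain ⟨h1, i, h2⟩ := hc
  have h3 : (-c) i = - c i := rfl
  refine ⟨box_neg h1, i, ?_⟩
  omega

theorem A0_neg {c : Cell} (hc : c ∈ A0) : -c ∈ A0 := by
  obtain ⟨h1, h2⟩ := mem_A0.1 hc
  refine mem_A0.2 ⟨bd_neg h1, fun h => h2 ?_⟩
  have := K_neg h
  rwa [neg_neg] at this

theorem A0_sym : Sym A0 := fun _ h => A0_neg h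

theorem bd_ne {c : Cell} (hc : c ∈ bd n) : cd c ≠ 0 := by
  obtain ⟨h, i, hi⟩ := mem_bd.1 hc
  obtain ⟨h0, h1, h2, h3⟩ := box_iff.1 h
  intro h4
  unfold cd at h4
  have e0 : c 0 = 0 := by omega
  have e1 : c 1 = 0 := by omega
  have e2 : c 2 = 0 := by omega
  have e3 : c 3 = 0 := by omega
  fin_cases i <;> simp [n] at hi <;> omega

theorem A0_ne {c : Cell} (hc : c ∈ A0) : cd c ≠ 0 := bd_ne (mem_A0.1 hc).1

/-- The consequence of a check for a cell with positive code. -/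
theorem run_spec {f : ℕ → ℕ → ℕ → ℕ → ℕ → Bool} (h : run f = true) {c : Cell} (hc : c ∈ A0)
    (hp : 0 < cd c) : f (q c 0) (q c 1) (q c 2) (q c 3) (X c) = true := by
  have hb := A0_box hc
  obtain ⟨h0, h1, h2, h3⟩ := q_lt hb
  have h4 := allN_spec (allN_spec (allN_spec (allN_spec h _ h0) _ h1) _ h2) _ h3
  rw [code_q hb] at h4
  refine imp_true h4 ?_
  have h5 : kb (X c) = false := by
    rw [Bool.eq_false_iff]
    exact fun h6 => (mem_A0.1 hc).2 ((mem_K hb).2 h6)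
  have h6 : Nat.blt 37264 (X c) = true := by
    rw [blt_X hb, decide_eq_true hp]
  have h7 := (mem_bd'.1 (mem_A0.1 hc).1).2
  generalize Nat.blt 37264 (X c) = b1 at h6
  generalize isbd (q c 0) (q c 1) (q c 2) (q c 3) = b2 at h7
  generalize kb (X c) = b3 at h5
  subst h5 h6 h7
  rfl

end Cub.Ex
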