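import Pool.Agent.H33.CB.Ex.OkF
import Pool.Agent.H33.CB.Ex.Sem

/-!
# The explicit local system on the complement of the knot
-/

namespace Cub.Ex

open Cub

/-- The direction with a given difference of codes. -/
def dirz (z : ℤ) : ℕ :=
  if z = -3549 then 0 else if z = 3549 then 1 else if z = -169 then 2 else if z = 169 then 3
  else if z = -13 then 4 else if z = 13 then 5 else if z = -1 then 6 else 7

theorem dirz_wd {d : ℕ} (hd : d < 8) : dirz (wd d) = d := by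
  interval_cases d <;> simp [dirz, wd]

/-- The local system. -/
def aK (c c' : Cell) : ZMod 3 :=
  if 0 < cd c then (tA (cd c).natAbs (dirz (cd c' - cd c)) : ZMod 3)
  else if cd c < 0 then (tA (cd c).natAbs (dirz (cd c - cd c')) : ZMod 3) else 0

theorem symA_aK : SymA aK := by
  intro c c'
  unfold aK
  rw [cd_neg, cd_neg, Int.natAbs_neg]
  have e1 : - cd c' - - cd c = cd c - cd c' := by ring
  have e2 : - cd c - - cd c' = cd c' - cd c := by ring
  rw [e1, e2]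
  rcases lt_trichotomy (cd c) 0 with h | h | h
  · rw [if_pos (by omega), if_neg (by omega), if_pos h]
  · rw [if_neg (by omega), if_neg (by omega), if_neg (by omega), if_neg (by omega)]
  · rw [if_neg (by omega), if_pos (by omega), if_pos h]

theorem aK_av {c : Cell} (hc : c ∈ Box n) (h0 : cd c ≠ 0) {d : ℕ} (hd : d < 8) :
    aK c (c + dv d) = ((av (X c) d (op d) : ℕ) : ZMod 3) := by
  have hb := blt_X hc
  have hX := X_cast hc
  have e1 : cd (c + dv d) - cd c = wd d := by rw [cd_add, cd_dv hd]; ring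
  have e2 : cd c - cd (c + dv d) = wd (op d) := by rw [cd_add, cd_dv hd, wd_op hd]; ring
  unfold aK av
  rw [hb]
  rcases lt_or_gt_of_ne h0 with h | h
  · have h1 : (cd c).natAbs = Nat.sub 37264 (X c) := by
      rw [Nat.sub_eq]
      omega
    rw [if_neg (by omega), if_pos h, e2, dirz_wd op_lt, decide_eq_false (by omega), cond_false, h1]
  · have h1 : (cd c).natAbs = Nat.sub (X c) 37264 := by
      rw [Nat.sub_eq]
      omega
    rw [if_pos h, e1, dirz_wd hd, decide_eq_true h, cond_true, h1]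

theorem facet_box {c : Cell} (hc : c ∈ Box n) {d : ℕ} (hd : d < 8) (ho : c (ax d) % 2 = 1) :
    c + dv d ∈ Box n := by
  have hle : Le (c + dv d) c := by
    obtain ⟨s, hs, hds⟩ := dv_eq hd
    refine (le_of_inc (inc_ne.2 ⟨ax d, ho, ?_⟩)).1
    rw [hds]
    rcases hs with rfl | rfl
    · left; simp
    · right; simp [sub_eq_add_neg]
  exact isComplex_box n c hc _ hle

private theorem flat_core {c : Cell} (hc : c ∈ A0) {d f : ℕ} (hd : d < 8) (hf : f < 8)
    (hne : ax d ≠ ax f) (h1 : c (ax d) % 2 = 1) (h2 : c (ax f) % 2 = 1)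
    (hA : c + dv d + dv f ∈ A0) (h : fl (X c) d (op d) f (op f) = true) :
    aK c (c + dv d) + aK (c + dv d) (c + dv d + dv f) =
      aK c (c + dv f) + aK (c + dv f) (c + dv d + dv f) := by
  have hb := A0_box hc
  have hb1 := facet_box hb hd h1
  have hb2 := facet_box hb hf h2
  have hoj : (c + dv d) (ax f) % 2 = 1 := by
    obtain ⟨s, -, hds⟩ := dv_eq hd
    rw [hds]
    have : (c + s • e (ax d)) (ax f) = c (ax f) := by
      simp [e, Ne.symm hne]
    rw [this]; exact h2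
  have hoi : (c + dv f) (ax d) % 2 = 1 := by
    obtain ⟨s, -, hds⟩ := dv_eq hf
    rw [hds]
    have : (c + s • e (ax f)) (ax d) = c (ax d) := by
      simp [e, hne]
    rw [this]; exact h1
  have hsw : c + dv d + dv f = c + dv f + dv d := by abel
  -- the cells are in A0, so the codes are not zero
  have hle1 : Le (c + dv d + dv f) (c + dv d) := by
    obtain ⟨s, hs, hds⟩ := dv_eq hf
    refine (le_of_inc (inc_ne.2 ⟨ax f, hoj, ?_⟩)).1
    rw [hds]
    rcases hs with rfl | rfl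
    · left; simp
    · right; simp [sub_eq_add_neg]
  have hbd : ∀ g < 8, c (ax g) % 2 = 1 → c + dv g ∈ bd n := by
    intro g hg hog
    have h3 := (mem_A0.1 hc).1
    rw [mem_bd] at h3
    refine isComplex_bd n c (mem_A0.1 hc).1 _ ?_
    obtain ⟨s, hs, hds⟩ := dv_eq hg
    refine (le_of_inc (inc_ne.2 ⟨ax g, hog, ?_⟩)).1
    rw [hds]
    rcases hs with rfl | rfl
    · left; simp
    · right; simp [sub_eq_add_neg]
  have n0 : ∀ g < 8, c (ax g) % 2 = 1 → cd (c + dv g) ≠ 0 := by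
    intro g hg hog h3
    exact bd_ne (hbd g hg hog) h3
  have hk : kb (X (c + dv d + dv f)) = false := by
    rw [Bool.eq_false_iff]
    exact fun h6 => (mem_A0.1 hA).2 ((mem_K (A0_box hA)).2 h6)
  rw [X_dv hb1 hf, X_dv hb hd] at hk
  unfold fl at h
  rw [hk, Bool.false_or, Nat.beq_eq] at h
  have a1 := aK_av hb (A0_ne hc) hd
  have a2 := aK_av hb1 (n0 d hd h1) hf
  have a3 := aK_av hb (A0_ne hc) hf
  have a4 := aK_av hb2 (n0 f hf h2) hd
  rw [X_dv hb hd] at a2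
  rw [X_dv hb hf] at a4
  rw [a1, a2, a3, hsw, a4]
  have h' : ((av (X c) d (op d) + av (sh (X c) d) f (op f) : ℕ) : ZMod 3) =
      ((av (X c) f (op f) + av (sh (X c) f) d (op d) : ℕ) : ZMod 3) := by
    rw [ZMod.natCast_eq_natCast_iff']
    exact h
  push_cast at h'
  exact h'

private theorem fl4_spec {x a b c f : ℕ} (h : fl4 x a b c f = true) :
    fl x a b c f = true ∧ fl x b a c f = true ∧ fl x a b f c = true ∧ fl x b a f c = true := by
  unfold fl4 at h
  obtain ⟨h1, h2⟩ := and_true' h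
  obtain ⟨h3, h4⟩ := and_true' h1
  obtain ⟨h5, h6⟩ := and_true' h2
  exact ⟨h3, h4, h5, h6⟩

private theorem flat_chk {c : Cell} (hc : c ∈ A0) (hp : 0 < cd c) {d f : ℕ} (hd : d < 8)
    (hf : f < 8) (hlt : ax d < ax f) (h1 : c (ax d) % 2 = 1) (h2 : c (ax f) % 2 = 1) :
    fl (X c) d (op d) f (op f) = true := by
  have h := run_spec chkFlat_ok hc hp
  have hb := A0_box hc
  have o1 := (odd_kk hb hd).2 h1
  have o2 := (odd_kk hb hf).2 h2
  generalize q c 0 = k0 at h o1 o2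
  generalize q c 1 = k1 at h o1 o2
  generalize q c 2 = k2 at h o1 o2
  generalize q c 3 = k3 at h o1 o2
  generalize X c = x at h ⊢
  clear h1 h2 hb hp hc
  unfold chkFlat at h
  obtain ⟨ha, hb⟩ := and_true' h
  obtain ⟨h01, ha⟩ := and_true' ha
  obtain ⟨h02, h03⟩ := and_true' ha
  obtain ⟨h12, hb⟩ := and_true' hb
  obtain ⟨h13, h23⟩ := and_true' hb
  have tt : ∀ {u v : Bool}, u = true → v = true → and u v = true := by
    intro u v hu hv
    rw [hu, hv]
    rfl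
  have c01 : odd k0 = true → odd k1 = true → fl4 x 0 1 2 3 = true := fun u v => imp_true h01 (tt u v)
  have c02 : odd k0 = true → odd k2 = true → fl4 x 0 1 4 5 = true := fun u v => imp_true h02 (tt u v)
  have c03 : odd k0 = true → odd k3 = true → fl4 x 0 1 6 7 = true := fun u v => imp_true h03 (tt u v)
  have c12 : odd k1 = true → odd k2 = true → fl4 x 2 3 4 5 = true := fun u v => imp_true h12 (tt u v)
  have c13 : odd k1 = true → odd k3 = true → fl4 x 2 3 6 7 = true := fun u v => imp_true h13 (tt u v)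
  have c23 : odd k2 = true → odd k3 = true → fl4 x 4 5 6 7 = true := fun u v => imp_true h23 (tt u v)
  clear h h01 ha h02 h03 h12 hb h13 h23
  have key : ∀ a b c' f' : ℕ, fl4 x a b c' f' = true →
      (d = a ∧ op d = b ∨ d = b ∧ op d = a) → (f = c' ∧ op f = f' ∨ f = f' ∧ op f = c') →
      fl x d (op d) f (op f) = true := by
    intro a b c' f' h4 hh1 hh2
    obtain ⟨u1, u2, u3, u4⟩ := fl4_spec h4
    rcases hh1 with ⟨e1, e2⟩ | ⟨e1, e2⟩ <;> rcases hh2 with ⟨e3, e4⟩ | ⟨e3, e4⟩ <;>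
      rw [e2, e4, e1, e3]
    · exact u1
    · exact u3
    · exact u2
    · exact u4
  have hdd : (ax d = 0 ∧ kk k0 k1 k2 k3 d = k0 ∧ (d = 0 ∧ op d = 1 ∨ d = 1 ∧ op d = 0)) ∨
      (ax d = 1 ∧ kk k0 k1 k2 k3 d = k1 ∧ (d = 2 ∧ op d = 3 ∨ d = 3 ∧ op d = 2)) ∨
      (ax d = 2 ∧ kk k0 k1 k2 k3 d = k2 ∧ (d = 4 ∧ op d = 5 ∨ d = 5 ∧ op d = 4)) ∨
      (ax d = 3 ∧ kk k0 k1 k2 k3 d = k3 ∧ (d = 6 ∧ op d = 7 ∨ d = 7 ∧ op d = 6)) := by
    clear key c01 c02 c03 c12 c13 c23 hlt o1 o2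
    interval_cases d <;> simp [ax, kk, op]
  have hff : (ax f = 0 ∧ kk k0 k1 k2 k3 f = k0 ∧ (f = 0 ∧ op f = 1 ∨ f = 1 ∧ op f = 0)) ∨
      (ax f = 1 ∧ kk k0 k1 k2 k3 f = k1 ∧ (f = 2 ∧ op f = 3 ∨ f = 3 ∧ op f = 2)) ∨
      (ax f = 2 ∧ kk k0 k1 k2 k3 f = k2 ∧ (f = 4 ∧ op f = 5 ∨ f = 5 ∧ op f = 4)) ∨
      (ax f = 3 ∧ kk k0 k1 k2 k3 f = k3 ∧ (f = 6 ∧ op f = 7 ∨ f = 7 ∧ op f = 6)) := by
    clear key c01 c02 c03 c12 c13 c23 hlt o1 o2
    interval_cases f <;> simp [ax, kk, op]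
  rcases hdd with ⟨a1, a2, a3⟩ | ⟨a1, a2, a3⟩ | ⟨a1, a2, a3⟩ | ⟨a1, a2, a3⟩ <;>
  rcases hff with ⟨b1, b2, b3⟩ | ⟨b1, b2, b3⟩ | ⟨b1, b2, b3⟩ | ⟨b1, b2, b3⟩ <;>
  rw [a1, b1] at hlt <;> rw [a2] at o1 <;> rw [b2] at o2 <;>
  first
  | exact key _ _ _ _ (c01 o1 o2) a3 b3
  | exact key _ _ _ _ (c02 o1 o2) a3 b3
  | exact key _ _ _ _ (c03 o1 o2) a3 b3
  | exact key _ _ _ _ (c12 o1 o2) a3 b3
  | exact key _ _ _ _ (c13 o1 o2) a3 b3
  | exact key _ _ _ _ (c23 o1 o2) a3 b3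
  | exact absurd hlt (by decide)

private theorem flat_pos {c : Cell} (hc : c ∈ A0) (hp : 0 < cd c) {d f : ℕ} (hd : d < 8)
    (hf : f < 8) (hne : ax d ≠ ax f) (h1 : c (ax d) % 2 = 1) (h2 : c (ax f) % 2 = 1)
    (hA : c + dv d + dv f ∈ A0) :
    aK c (c + dv d) + aK (c + dv d) (c + dv d + dv f) =
      aK c (c + dv f) + aK (c + dv f) (c + dv d + dv f) := by
  rcases lt_or_gt_of_ne hne with h | h
  · exact flat_core hc hd hf hne h1 h2 hA (flat_chk hc hp hd hf h h1 h2)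
  · have hsw : c + dv d + dv f = c + dv f + dv d := by abel
    rw [hsw] at hA ⊢
    exact (flat_core hc hf hd hne.symm h2 h1 hA (flat_chk hc hp hf hd h h2 h1)).symm

theorem flat_aK : Flat aK (bd n \ K) := by
  intro c hc i j hij hi hj s t hs ht hA
  obtain ⟨d, hd, hds, hda⟩ := exists_dir i hs
  obtain ⟨f, hf, hft, hfa⟩ := exists_dir j ht
  rw [hds, hft] at hA ⊢
  rw [← hda] at hi
  rw [← hfa] at hj
  have hne : ax d ≠ ax f := by rw [hda, hfa]; exact hij
  rcases lt_or_gt_of_ne (A0_ne hc) with h | h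
  · have hp : 0 < cd (-c) := by rw [cd_neg]; omega
    have hi' : (-c) (ax (op d)) % 2 = 1 := by
      rw [ax_op hd, Pi.neg_apply]; omega
    have hj' : (-c) (ax (op f)) % 2 = 1 := by
      rw [ax_op hf, Pi.neg_apply]; omega
    have e1 : -c + dv (op d) = -(c + dv d) := by rw [dv_op hd]; abel
    have e2 : -c + dv (op f) = -(c + dv f) := by rw [dv_op hf]; abel
    have e3 : -(c + dv d) + dv (op f) = -(c + dv d + dv f) := by rw [dv_op hf]; abel
    have h3 := flat_pos (A0_neg hc) hp (d := op d) (f := op f) op_lt op_lt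
      (by rw [ax_op hd, ax_op hf]; exact hne) hi' hj' (by rw [e1, e3]; exact A0_neg hA)
    rw [e1, e2, e3, symA_aK, symA_aK, symA_aK, symA_aK] at h3
    exact h3
  · exact flat_pos hc h hd hf hne hi hj hA

/-- An edge of the knot. -/
def c0 : Cell := ![-10, -9, 0, 0]

theorem c0_K : c0 ∈ K := by
  unfold K
  rw [Finset.mem_filter, box_iff]
  refine ⟨by simp [c0], ?_⟩
  decide +kernel

theorem mono_c0 : mono aK c0 2 3 ≠ 0 := by decide +kernel

theorem mono_aK : ∃ c ∈ K, dim c = 1 ∧ ∃ i j k : Fin 4, i < j ∧ i ≠ k ∧ j ≠ k ∧ c i % 2 = 0 ∧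
    c j % 2 = 0 ∧ (c k = 2 * (n k : ℤ) ∨ c k = -(2 * (n k : ℤ))) ∧
    (-(2 * (n i : ℤ)) < c i ∧ c i < 2 * (n i : ℤ)) ∧
    (-(2 * (n j : ℤ)) < c j ∧ c j < 2 * (n j : ℤ)) ∧ mono aK c i j ≠ 0 := by
  refine ⟨c0, c0_K, by decide +kernel, 2, 3, 0, by decide, by decide, by decide, by decide +kernel,
    by decide +kernel, by decide +kernel, by decide +kernel, by decide +kernel, mono_c0⟩

end Cub.Ex
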