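import Pool.Agent.H33.CB.Ex.Mat
import Pool.Agent.H33.CB.Ex.OkV

/-!
# The critical chains form a chain map
-/

namespace Cub.Ex

open Cub

variable {R : Type} [CommRing R]

/-- The ring element of a pair of integers. -/
def emb (ζ : R) (p : ℤ × ℤ) : R := (p.1 : R) + (p.2 : R) * ζ

theorem emb_zero (ζ : R) : emb ζ (0, 0) = 0 := by simp [emb]

theorem emb_add (ζ : R) (p p' : ℤ × ℤ) : emb ζ (addp p p') = emb ζ p + emb ζ p' := by
  simp only [emb, addp]
  push_cast
  ring

theorem emb_neg (ζ : R) (p : ℤ × ℤ) : emb ζ (negp p) = - emb ζ p := by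
  simp only [emb, negp]
  push_cast
  ring

theorem emb_mul {ζ : R} (hζ : ζ ^ 2 + ζ + 1 = 0) (a p : ℤ × ℤ) :
    emb ζ (mulp a p) = emb ζ a * emb ζ p := by
  simp only [emb, mulp]
  push_cast
  linear_combination (-(a.2 : R) * (p.2 : R)) * hζ

theorem cube {ζ : R} (hζ : ζ ^ 2 + ζ + 1 = 0) : ζ ^ 3 = 1 := by
  linear_combination (ζ - 1) * hζ

theorem emb_rot {ζ : R} (hζ : ζ ^ 2 + ζ + 1 = 0) {k : ℕ} (hk : k ≤ 3) (p : ℤ × ℤ) :
    emb ζ (rot k p) = ζ ^ k * emb ζ p := by
  have h3 := cube hζ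
  interval_cases k
  · simp [rot]
  · simp only [emb, rot]
    push_cast
    linear_combination (-(p.2 : R)) * hζ
  · simp only [emb, rot]
    push_cast
    linear_combination (-(p.1 : R) - (p.2 : R) * (ζ - 1)) * hζ
  · simp only [rot]
    rw [h3, one_mul]

theorem zp_nat {ζ : R} (hζ : ζ ^ 2 + ζ + 1 = 0) (t : ℕ) : zp ζ ((t : ℕ) : ZMod 3) = ζ ^ t := by
  have h3 := cube hζ
  unfold zp
  rw [ZMod.val_natCast]
  conv_rhs => rw [← Nat.div_add_mod t 3, pow_add, pow_mul, h3, one_pow, one_mul]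

theorem get_le (T w m x : ℕ) : get T w m x ≤ m := by
  unfold get
  cases Nat.shiftRight x 8 with
  | zero => exact Nat.and_le_right
  | succ b => exact Nat.and_le_right

theorem av_le (x d d' : ℕ) : av x d d' ≤ 3 := by
  unfold av
  generalize Nat.blt 37264 x = b
  cases b
  · rw [cond_false]
    unfold tA
    exact get_le _ _ _ _
  · rw [cond_true]
    unfold tA
    exact get_le _ _ _ _

def dj : ℕ → ℕ
  | 0 => 3
  | 1 => 2
  | 2 => 2
  | 3 => 2
  | _ => 1

def sj : ℕ → ℕ
  | 0 => 0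
  | 1 => 0
  | 2 => 1
  | 3 => 2
  | 4 => 0
  | _ => 1

open Classical in
/-- The critical chains. -/
noncomputable def P (ζ : R) (j : Fin 6) (c : Cell) : R :=
  if c ∈ A0 ∧ dim c = dj j then emb ζ (slot (sj j) (Vc c)) else 0

/-- The small complex. -/
def Dp (ζ : R) (i j : Fin 6) : R := emb ζ (dp i j)

theorem dim_neg' (c : Cell) : dim (-c) = dim c := by
  unfold dim
  congr 1
  ext i
  simp only [Finset.mem_filter, Finset.mem_univ, true_and, Pi.neg_apply]
  omega

theorem P_neg (ζ : R) (j : Fin 6) (c : Cell) : P ζ j (-c) = P ζ j c := by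
  have h : (-c ∈ A0) ↔ c ∈ A0 := by
    constructor
    · intro h
      have := A0_neg h
      rwa [neg_neg] at this
    · exact fun h => A0_neg h
  unfold P
  rw [Vc_neg, dim_neg']
  by_cases hc : c ∈ A0 ∧ dim c = dj j
  · rw [if_pos hc, if_pos ⟨h.2 hc.1, hc.2⟩]
  · rw [if_neg hc, if_neg (fun h1 => hc ⟨h.1 h1.1, h1.2⟩)]

theorem P_out (ζ : R) (j : Fin 6) {c : Cell} (hc : c ∉ A0) : P ζ j c = 0 :=
  if_neg fun h => hc h.1

theorem P_dim (ζ : R) (j : Fin 6) {c : Cell} (hc : dim c ≠ dj j) : P ζ j c = 0 :=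
  if_neg fun h => hc h.2

private theorem sum_pairs (f : Cell → R) : ∑ a ∈ A0, f a = ∑ b ∈ pos A0, (f b + f (-b)) := by
  have hs := sec_pos A0_sym (A := A0) (fun h => A0_ne h (by simp [cd]))
  have h1 : A0 = pos A0 ∪ (pos A0).image (fun b => -b) := by
    ext a
    rw [Finset.mem_union, Finset.mem_image]
    constructor
    · intro ha
      rcases hs.all a ha with h | h
      · exact Or.inl h
      · exact Or.inr ⟨-a, h, neg_neg a⟩
    · rintro (h | ⟨b, hb, rfl⟩)
      · exact hs.sub h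
      · exact A0_neg (hs.sub hb)
  have h2 : Disjoint (pos A0) ((pos A0).image (fun b => -b)) := by
    rw [Finset.disjoint_left]
    intro a ha h
    obtain ⟨b, hb, rfl⟩ := Finset.mem_image.1 h
    exact hs.one b hb ha
  conv_lhs => rw [h1]
  rw [Finset.sum_union h2, Finset.sum_image (fun a _ b _ h => neg_injective h),
    Finset.sum_add_distrib]

/-- The sum over the pairs is a sum over all cells. -/
theorem sum_dq (ζ : R) (j : Fin 6) (b : Cell) :
    ∑ b' ∈ pos A0, P ζ j b' * dq (dcoef ζ aK) b' b = ∑ c ∈ A0, P ζ j c * dcoef ζ aK c b := by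
  rw [sum_pairs]
  refine Finset.sum_congr rfl fun c _ => ?_
  have h := symM_dcoef (ζ := ζ) symA_aK c (-b)
  rw [neg_neg] at h
  rw [P_neg, h]
  unfold dq
  ring

theorem sgn_shift (i : Fin 4) (b : Cell) (s : ℤ) : sgn i (b + s • e i) = sgn i b := by
  unfold sgn
  congr 2
  ext k
  simp only [Finset.mem_filter, Finset.mem_univ, true_and]
  refine and_congr_right fun hk => ?_
  have : (b + s • e i) k = b k := by
    simp [e, hk.ne]
  rw [this]

/-- The contribution of the coface `c` of `b` in the coordinate `i`. -/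
noncomputable def val (ζ : R) (j : Fin 6) (b : Cell) (i : Fin 4) (c : Cell) : R :=
  P ζ j c * ((sgn i b : ℤ) : R) * zp ζ (aK c b)

theorem sum_dirs (ζ : R) (j : Fin 6) (b : Cell) :
    ∑ c ∈ A0, P ζ j c * dcoef ζ aK c b =
      ∑ i : Fin 4, if b i % 2 = 0 then val ζ j b i (b + e i) + val ζ j b i (b - e i) else 0 := by
  have h1 : ∀ c, P ζ j c * dcoef ζ aK c b = ∑ i : Fin 4,
      if c i % 2 = 1 ∧ (b = c + e i ∨ b = c - e i) then
        P ζ j c * ((sgn i c : ℤ) : R) * zp ζ (aK c b) else 0 := by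
    intro c
    unfold dcoef inc
    push_cast
    rw [Finset.sum_mul, Finset.mul_sum]
    refine Finset.sum_congr rfl fun i _ => ?_
    split
    · ring
    · simp
  simp only [h1]
  rw [Finset.sum_comm]
  refine Finset.sum_congr rfl fun i _ => ?_
  set g : Cell → R := fun c => if c i % 2 = 1 ∧ (b = c + e i ∨ b = c - e i) then
        P ζ j c * ((sgn i c : ℤ) : R) * zp ζ (aK c b) else 0 with hg
  have hne : b + e i ≠ b - e i := by
    intro h
    have := congrFun h i
    simp [e] at this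
    omega
  have h2 : ∑ c ∈ A0, g c = ∑ c ∈ A0 ∪ {b + e i, b - e i}, g c := by
    refine Finset.sum_subset Finset.subset_union_left fun c _ hc => ?_
    simp only [hg]
    split
    · rw [P_out ζ j hc]
      ring
    · rfl
  have h3 : ∑ c ∈ ({b + e i, b - e i} : Finset Cell), g c = ∑ c ∈ A0 ∪ {b + e i, b - e i}, g c := by
    refine Finset.sum_subset Finset.subset_union_right fun c _ hc => ?_
    simp only [hg]
    rw [if_neg]
    rintro ⟨-, h | h⟩
    · apply hc
      rw [h]
      simp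
    · apply hc
      rw [h]
      simp
  rw [h2, ← h3, Finset.sum_pair hne]
  have e1 : (b + e i) i = b i + 1 := by simp [e]
  have e2 : (b - e i) i = b i - 1 := by simp [e]
  have s1 : sgn i (b + e i) = sgn i b := by
    have := sgn_shift i b 1
    simpa using this
  have s2 : sgn i (b - e i) = sgn i b := by
    have := sgn_shift i b (-1)
    simpa [sub_eq_add_neg] using this
  simp only [hg, val]
  by_cases hb : b i % 2 = 0
  · rw [if_pos hb, if_pos ⟨by rw [e1]; omega, Or.inr (by abel)⟩,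
      if_pos ⟨by rw [e2]; omega, Or.inl (by abel)⟩, s1, s2]
  · rw [if_neg hb, if_neg (fun h => hb (by rw [e1] at h; omega)),
      if_neg (fun h => hb (by rw [e2] at h; omega)), add_zero]

theorem slot_zero (s : ℕ) : slot s 0 = (0, 0) := by
  have h1 : Nat.land (Nat.shiftRight 0 (Nat.mul 10 s)) 31 = 0 := by
    show (0 >>> (10 * s)) &&& 31 = 0
    rw [Nat.zero_shiftRight, Nat.zero_and]
  have h2 : Nat.land (Nat.shiftRight 0 (Nat.add (Nat.mul 10 s) 5)) 31 = 0 := by
    show (0 >>> (10 * s + 5)) &&& 31 = 0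
    rw [Nat.zero_shiftRight, Nat.zero_and]
  unfold slot
  rw [h1, h2]
  rfl

theorem emb_term {ζ : R} (hζ : ζ ^ 2 + ζ + 1 = 0) {c : Cell} (hc : c ∈ Box n) (s d d' : ℕ) :
    emb ζ (term s (X c) d d') = ζ ^ (av (X c) d d') * emb ζ (slot s (Vc c)) := by
  unfold term
  rw [Vx_X hc]
  by_cases h : Vc c = 0
  · have : Nat.beq (Vc c) 0 = true := by rw [Nat.beq_eq]; exact h
    rw [this, cond_true, h, slot_zero, emb_zero, mul_zero]
  · have : Nat.beq (Vc c) 0 = false := by
      rw [Bool.eq_false_iff, ne_eq, Nat.beq_eq]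
      exact h
    rw [this, cond_false, emb_rot hζ (av_le _ _ _)]

/-- One coface, in terms of the tables. -/
theorem val_term {ζ : R} (hζ : ζ ^ 2 + ζ + 1 = 0) (j : Fin 6) {b : Cell} (hb : b ∈ A0)
    (hdim : dim b + 1 = dj j) {d : ℕ} (hd : d < 8) (hev : b (ax d) % 2 = 0) :
    val ζ j b (ax d) (b + dv d) =
      ((sgn (ax d) b : ℤ) : R) * emb ζ (cond (rng (q b 0) (q b 1) (q b 2) (q b 3) d)
        (term (sj j) (sh (X b) d) (op d) d) (0, 0)) := by
  have hbb := A0_box hb
  by_cases hr : rng (q b 0) (q b 1) (q b 2) (q b 3) d = true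
  · have hcb := rng_box hbb hd hr
    rw [hr, cond_true, ← X_dv hbb hd, emb_term hζ hcb]
    unfold val
    by_cases hA : b + dv d ∈ A0
    · have hdc : dim (b + dv d) = dj j := by
        obtain ⟨s, hs, hds⟩ := dv_eq hd
        have hinc : inc (b + dv d) b ≠ 0 := by
          refine inc_ne.2 ⟨ax d, ?_, ?_⟩
          · rw [hds]
            have : (b + s • e (ax d)) (ax d) = b (ax d) + s := by simp [e]
            rw [this]
            omega
          · rw [hds]
            rcases hs with rfl | rfl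
            · right; simp
            · left; simp
        rw [(le_of_inc hinc).2, hdim]
      have hP : P ζ j (b + dv d) = emb ζ (slot (sj j) (Vc (b + dv d))) := if_pos ⟨hA, hdc⟩
      have haK : aK (b + dv d) b = ((av (X (b + dv d)) (op d) d : ℕ) : ZMod 3) := by
        have h1 := aK_av hcb (A0_ne hA) (d := op d) op_lt
        have h2 : b + dv d + dv (op d) = b := by rw [dv_op hd]; abel
        rw [h2, op_op hd] at h1
        exact h1
      rw [hP, haK, zp_nat hζ]
      ring
    · rw [P_out ζ j hA, Vc_zero hcb hA, slot_zero, emb_zero]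
      ring
  · have hr' : rng (q b 0) (q b 1) (q b 2) (q b 3) d = false := by
      rw [Bool.eq_false_iff]
      exact hr
    have hnb : b + dv d ∉ A0 := by
      intro hA
      have hcb := A0_box hA
      apply hr
      obtain ⟨a0, a1, a2, a3⟩ := box_iff.1 hbb
      rw [box_iff] at hcb
      interval_cases d <;> simp only [rng, Nat.blt_eq, q] <;> simp [dv, e] at hcb <;> omega
    rw [hr', cond_false, emb_zero, mul_zero]
    unfold val
    rw [P_out ζ j hnb]
    ring

private theorem card4 (p : Fin 4 → Prop) [DecidablePred p] :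
    (Finset.univ.filter p).card = (if p 0 then 1 else 0) + (if p 1 then 1 else 0) +
      (if p 2 then 1 else 0) + (if p 3 then 1 else 0) := by
  rw [Finset.card_filter, Fin.sum_univ_four]

theorem sgn_vals (b : Cell) : sgn 0 b = 1 ∧ sgn 1 b = (if b 0 % 2 = 1 then -1 else 1) ∧
    sgn 2 b = (if b 0 % 2 = 1 then -1 else 1) * (if b 1 % 2 = 1 then -1 else 1) ∧
    sgn 3 b = (if b 0 % 2 = 1 then -1 else 1) * (if b 1 % 2 = 1 then -1 else 1) *
      (if b 2 % 2 = 1 then -1 else 1) := by
  unfold sgn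
  rw [card4, card4, card4, card4]
  refine ⟨?_, ?_, ?_, ?_⟩
  · simp
  · by_cases h0 : b 0 % 2 = 1 <;> simp [h0]
  · by_cases h0 : b 0 % 2 = 1 <;> by_cases h1 : b 1 % 2 = 1 <;> simp [h0, h1]
  · by_cases h0 : b 0 % 2 = 1 <;> by_cases h1 : b 1 % 2 = 1 <;> by_cases h2 : b 2 % 2 = 1 <;>
      simp [h0, h1, h2]

theorem emb_sgb (ζ : R) (o : Bool) (p : ℤ × ℤ) :
    emb ζ (sgb o p) = (if o = true then -1 else 1) * emb ζ p := by
  unfold sgb
  cases o
  · rw [cond_false]; simp
  · rw [cond_true, emb_neg]; simp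

theorem odd_q {b : Cell} (hb : b ∈ Box n) : (odd (q b 0) = true ↔ b 0 % 2 = 1) ∧
    (odd (q b 1) = true ↔ b 1 % 2 = 1) ∧ (odd (q b 2) = true ↔ b 2 % 2 = 1) ∧
    (odd (q b 3) = true ↔ b 3 % 2 = 1) :=
  ⟨odd_kk hb (d := 0) (by omega), odd_kk hb (d := 2) (by omega), odd_kk hb (d := 4) (by omega),
    odd_kk hb (d := 6) (by omega)⟩

/-- The two cofaces in one coordinate. -/
private theorem val_two {ζ : R} (hζ : ζ ^ 2 + ζ + 1 = 0) (j : Fin 6) {b : Cell} (hb : b ∈ A0)
    (hdim : dim b + 1 = dj j) (i : Fin 4) (d d' k l : ℕ) (hd : d < 8) (hd' : d' < 8)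
    (hod : op d = d') (ha : ax d = i) (ha' : ax d' = i) (he : dv d = -(e i)) (he' : dv d' = e i)
    (hodd : odd k = true ↔ b i % 2 = 1)
    (hr : rng (q b 0) (q b 1) (q b 2) (q b 3) d = Nat.blt 0 k)
    (hr' : rng (q b 0) (q b 1) (q b 2) (q b 3) d' = Nat.blt k l) :
    (if b i % 2 = 0 then val ζ j b i (b + e i) + val ζ j b i (b - e i) else 0) =
      ((sgn i b : ℤ) : R) * emb ζ (two (sj j) k l (X b) d d') := by
  have hod' : op d' = d := by rw [← hod, op_op hd]
  unfold two
  by_cases ho : b i % 2 = 1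
  · rw [hodd.2 ho, cond_true, emb_zero, mul_zero, if_neg (by omega)]
  · have h0 : odd k = false := by
      rw [Bool.eq_false_iff]
      exact fun h => ho (hodd.1 h)
    rw [h0, cond_false, emb_add, if_pos (by omega), ← hr, ← hr']
    have h1 := val_term hζ j hb hdim hd' (by rw [ha']; omega)
    have h2 := val_term hζ j hb hdim hd (by rw [ha]; omega)
    rw [ha', he', hod'] at h1
    rw [ha, he, hod, ← sub_eq_add_neg] at h2
    rw [h1, h2]
    ring

theorem sum_lhs {ζ : R} (hζ : ζ ^ 2 + ζ + 1 = 0) (j : Fin 6) {b : Cell} (hb : b ∈ A0)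
    (hdim : dim b + 1 = dj j) :
    ∑ b' ∈ pos A0, P ζ j b' * dq (dcoef ζ aK) b' b =
      emb ζ (lhs (sj j) (q b 0) (q b 1) (q b 2) (q b 3) (X b)) := by
  have hbb := A0_box hb
  obtain ⟨o0, o1, o2, o3⟩ := odd_q hbb
  obtain ⟨s0, s1, s2, s3⟩ := sgn_vals b
  rw [sum_dq, sum_dirs, Fin.sum_univ_four]
  rw [val_two hζ j hb hdim 0 0 1 (q b 0) 20 (by omega) (by omega) rfl rfl rfl rfl rfl o0 rfl rfl,
    val_two hζ j hb hdim 1 2 3 (q b 1) 20 (by omega) (by omega) rfl rfl rfl rfl rfl o1 rfl rfl,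
    val_two hζ j hb hdim 2 4 5 (q b 2) 12 (by omega) (by omega) rfl rfl rfl rfl rfl o2 rfl rfl,
    val_two hζ j hb hdim 3 6 7 (q b 3) 12 (by omega) (by omega) rfl rfl rfl rfl rfl o3 rfl rfl]
  unfold lhs
  rw [emb_add, emb_add, emb_add, emb_sgb, emb_sgb, emb_sgb, s0, s1, s2, s3]
  have c0 : (if odd (q b 0) = true then (-1 : R) else 1) = if b 0 % 2 = 1 then -1 else 1 := by
    simp only [o0]
  have c1 : (if xor (odd (q b 0)) (odd (q b 1)) = true then (-1 : R) else 1) =
      (if b 0 % 2 = 1 then -1 else 1) * (if b 1 % 2 = 1 then -1 else 1) := by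
    simp only [← o0, ← o1]
    generalize odd (q b 0) = u
    generalize odd (q b 1) = v
    cases u <;> cases v <;> simp
  have c2 : (if xor (xor (odd (q b 0)) (odd (q b 1))) (odd (q b 2)) = true then (-1 : R) else 1) =
      (if b 0 % 2 = 1 then -1 else 1) * (if b 1 % 2 = 1 then -1 else 1) *
        (if b 2 % 2 = 1 then -1 else 1) := by
    simp only [← o0, ← o1, ← o2]
    generalize odd (q b 0) = u
    generalize odd (q b 1) = v
    generalize odd (q b 2) = w
    cases u <;> cases v <;> cases w <;> simp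
  rw [c0, c1, c2]
  push_cast
  ring

private theorem land_one (k : ℕ) : Nat.land k 1 = k % 2 := Nat.and_two_pow_sub_one_eq_mod k 1

theorem nodd_q {b : Cell} (hb : b ∈ Box n) : nodd (q b 0) (q b 1) (q b 2) (q b 3) = dim b := by
  obtain ⟨o0, o1, o2, o3⟩ := odd_q hb
  rw [odd_iff] at o0 o1 o2 o3
  unfold nodd dim
  rw [card4, land_one, land_one, land_one, land_one]
  have e0 : q b 0 % 2 = if b 0 % 2 = 1 then 1 else 0 := by split <;> omega
  have e1 : q b 1 % 2 = if b 1 % 2 = 1 then 1 else 0 := by split <;> omega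
  have e2 : q b 2 % 2 = if b 2 % 2 = 1 then 1 else 0 := by split <;> omega
  have e3 : q b 3 % 2 = if b 3 % 2 = 1 then 1 else 0 := by split <;> omega
  rw [e0, e1, e2, e3]
  simp only [Nat.add_eq]
  ring

theorem eqp_spec {p p' : ℤ × ℤ} (h : eqp p p' = true) : p = p' := by
  unfold eqp at h
  obtain ⟨h1, h2⟩ := and_true' h
  exact Prod.ext (of_decide_eq_true h1) (of_decide_eq_true h2)

theorem P_in (ζ : R) (j : Fin 6) {b : Cell} (hb : b ∈ A0) (hd : dim b = dj j) :
    P ζ j b = emb ζ (slot (sj j) (Vc b)) := if_pos ⟨hb, hd⟩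

/-- The critical chains form a chain map. -/
theorem chain_map {ζ : R} (hζ : ζ ^ 2 + ζ + 1 = 0) : ∀ a ∈ (Finset.univ : Finset (Fin 6)),
    ∀ b ∈ pos A0, ∑ a' ∈ Finset.univ, Dp ζ a a' * P ζ a' b =
      ∑ b' ∈ pos A0, P ζ a b' * dq (dcoef ζ aK) b' b := by
  intro a _ b hb
  obtain ⟨hbA, hp⟩ := mem_pos.1 hb
  have hbb := A0_box hbA
  by_cases hdim : dim b + 1 = dj a
  · rw [sum_lhs hζ a hbA hdim]
    have h := run_spec chkV_ok hbA hp
    have hn := nodd_q hbb
    rw [Fin.sum_univ_six]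
    unfold chkV at h
    rw [hn] at h
    fin_cases a
    · have hd : dim b = 2 := by simpa [dj] using hdim
      rw [hd] at h
      have h1 := eqp_spec h
      change _ = emb ζ (lhs 0 (q b 0) (q b 1) (q b 2) (q b 3) (X b))
      rw [h1]
      unfold rhs2
      rw [emb_add, emb_add, emb_mul hζ, emb_mul hζ, emb_mul hζ, Vx_X hbb]
      rw [P_in ζ 1 hbA (by rw [hd]; rfl), P_in ζ 2 hbA (by rw [hd]; rfl),
        P_in ζ 3 hbA (by rw [hd]; rfl), P_dim ζ 0 (by rw [hd]; decide),
        P_dim ζ 4 (by rw [hd]; decide), P_dim ζ 5 (by rw [hd]; decide)]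
      simp only [Dp, sj, Fin.val_one, Fin.isValue]
      simp only [Fin.isValue, Fin.coe_ofNat_eq_mod, Nat.zero_mod]
      norm_num
      ring
    · have hd : dim b = 1 := by simpa [dj] using hdim
      rw [hd] at h
      have h1 := eqp_spec (and_true' h).1
      change _ = emb ζ (lhs 0 (q b 0) (q b 1) (q b 2) (q b 3) (X b))
      rw [h1]
      unfold rhs1
      rw [emb_add, emb_mul hζ, emb_mul hζ, Vx_X hbb]
      rw [P_in ζ 4 hbA (by rw [hd]; rfl), P_in ζ 5 hbA (by rw [hd]; rfl),
        P_dim ζ 0 (by rw [hd]; decide), P_dim ζ 1 (by rw [hd]; decide),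
        P_dim ζ 2 (by rw [hd]; decide), P_dim ζ 3 (by rw [hd]; decide)]
      simp only [Dp, sj, Fin.isValue, mul_zero, zero_add]
      rfl
    · have hd : dim b = 1 := by simpa [dj] using hdim
      rw [hd] at h
      have h1 := eqp_spec (and_true' (and_true' h).2).1
      change _ = emb ζ (lhs 1 (q b 0) (q b 1) (q b 2) (q b 3) (X b))
      rw [h1]
      unfold rhs1
      rw [emb_add, emb_mul hζ, emb_mul hζ, Vx_X hbb]
      rw [P_in ζ 4 hbA (by rw [hd]; rfl), P_in ζ 5 hbA (by rw [hd]; rfl),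
        P_dim ζ 0 (by rw [hd]; decide), P_dim ζ 1 (by rw [hd]; decide),
        P_dim ζ 2 (by rw [hd]; decide), P_dim ζ 3 (by rw [hd]; decide)]
      simp only [Dp, sj, Fin.isValue, mul_zero, zero_add]
      rfl
    · have hd : dim b = 1 := by simpa [dj] using hdim
      rw [hd] at h
      have h1 := eqp_spec (and_true' (and_true' h).2).2
      change _ = emb ζ (lhs 2 (q b 0) (q b 1) (q b 2) (q b 3) (X b))
      rw [h1]
      unfold rhs1
      rw [emb_add, emb_mul hζ, emb_mul hζ, Vx_X hbb]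
      rw [P_in ζ 4 hbA (by rw [hd]; rfl), P_in ζ 5 hbA (by rw [hd]; rfl),
        P_dim ζ 0 (by rw [hd]; decide), P_dim ζ 1 (by rw [hd]; decide),
        P_dim ζ 2 (by rw [hd]; decide), P_dim ζ 3 (by rw [hd]; decide)]
      simp only [Dp, sj, Fin.isValue, mul_zero, zero_add]
      rfl
    · have hd : dim b = 0 := by simpa [dj] using hdim
      rw [hd] at h
      have h1 := eqp_spec (and_true' h).1
      change _ = emb ζ (lhs 0 (q b 0) (q b 1) (q b 2) (q b 3) (X b))
      rw [h1, emb_zero]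
      simp [Dp, dp, emb_zero]
    · have hd : dim b = 0 := by simpa [dj] using hdim
      rw [hd] at h
      have h1 := eqp_spec (and_true' h).2
      change _ = emb ζ (lhs 1 (q b 0) (q b 1) (q b 2) (q b 3) (X b))
      rw [h1, emb_zero]
      simp [Dp, dp, emb_zero]
  · have h1 : ∑ b' ∈ pos A0, P ζ a b' * dq (dcoef ζ aK) b' b = 0 := by
      rw [sum_dq]
      refine Finset.sum_eq_zero fun c _ => ?_
      by_cases h2 : inc c b = 0
      · unfold dcoef
        rw [h2]
        simp
      · rw [P_dim ζ a, zero_mul]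
        rw [(le_of_inc h2).2]
        exact hdim
    rw [h1]
    refine Finset.sum_eq_zero fun a' _ => ?_
    by_cases h2 : dim b = dj a'
    · have h3 : dp a a' = (0, 0) := by
        rw [h2] at hdim
        clear h1 hb hbA hp hbb h2
        fin_cases a <;> fin_cases a' <;> first | rfl | exact absurd rfl hdim
      unfold Dp
      rw [h3, emb_zero, zero_mul]
    · rw [P_dim ζ a' h2, mul_zero]

end Cub.Ex
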