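import Pool.Agent.H33.CB.Ex.Par
import Pool.Agent.H33.CB.Neg
import Pool.Agent.H33.CB.Coll

/-!
# The example is not standardly equivariantly slice
-/

namespace Cub.Ex

open Cub

theorem not_stdSlice (hK : IsPeriodicKnot n K) : ¬ StdSlice n K := by
  refine not_std ?_ hK aK symA_aK flat_aK mono_aK ?_ stM1 stM2 stM3 stT5
  · intro i
    fin_cases i <;> simp [n]
  · intro R _ ζ hR
    exact par_one hR hK.1.cx

end Cub.Ex
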