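import Mathlib.Init

namespace Cub.Ex

/-- Concatenation of the rows of a table. -/
def pack (w : Nat) (l : List Nat) : Nat := l.foldr (fun r t => Nat.add r (Nat.shiftLeft t w)) 0

/-- Block number `b` of the table `T`: 256 entries of width `w`. -/
def blk (T w b : Nat) : Nat :=
  Nat.land (Nat.shiftRight T (Nat.mul (Nat.mul w 256) b)) (Nat.sub (Nat.pow 2 (Nat.mul w 256)) 1)

/-- Table entry number `x` (width `w`, mask `m = 2 ^ w - 1`) in the block number `b`. -/
def getb (T w m x b : Nat) : Nat :=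
  Nat.land (Nat.shiftRight (blk T w b) (Nat.mul w (Nat.land x 255))) m

/-- Table entry number `x`: width `w`, mask `m = 2 ^ w - 1`. -/
def get (T w m x : Nat) : Nat :=
  Nat.rec (motive := fun _ => Nat) (getb T w m x 0) (fun b _ => getb T w m x (Nat.succ b))
    (Nat.shiftRight x 8)

/-- `f k` for all `k < n`. -/
def allN (n : Nat) (f : Nat → Bool) : Bool := Nat.rec true (fun k r => and (f k) r) n

def ix (x : Nat) : Nat := Nat.add (Nat.sub x 37264) (Nat.sub 37264 x)

/-- code of the neighbour in the direction `d` -/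
def sh (x : Nat) : Nat → Nat
  | 0 => Nat.sub x 3549
  | 1 => Nat.add x 3549
  | 2 => Nat.sub x 169
  | 3 => Nat.add x 169
  | 4 => Nat.sub x 13
  | 5 => Nat.add x 13
  | 6 => Nat.sub x 1
  | _ => Nat.add x 1

/-- opposite direction -/
def op : Nat → Nat
  | 0 => 1
  | 1 => 0
  | 2 => 3
  | 3 => 2
  | 4 => 5
  | 5 => 4
  | 6 => 7
  | _ => 6

/-- the coordinate which belongs to the direction `d` -/
def kk (k0 k1 k2 k3 : Nat) : Nat → Nat
  | 0 => k0
  | 1 => k0
  | 2 => k1
  | 3 => k1
  | 4 => k2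
  | 5 => k2
  | 6 => k3
  | _ => k3

def odd (k : Nat) : Bool := Nat.beq (Nat.land k 1) 1

/-- extremal coordinates -/
def exA (k : Nat) : Bool := or (Nat.beq k 0) (Nat.beq k 20)
def exB (k : Nat) : Bool := or (Nat.beq k 0) (Nat.beq k 12)

def isbd (k0 k1 k2 k3 : Nat) : Bool := or (or (exA k0) (exA k1)) (or (exB k2) (exB k3))

end Cub.Ex
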