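import Pool.Agent.H33.CB.Stmt
import Pool.Agent.H33.CB.Ex.Data

/-!
# The example: the box and the knot
-/

namespace Cub.Ex

/-- The half sizes of the box. -/
def n : Fin 4 → ℕ := ![5, 5, 3, 3]

/-- The code of a cell (an integer in mixed radix; `cd (-c) = - cd c`). -/
def cd (c : Cell) : ℤ := 3549 * c 0 + 169 * c 1 + 13 * c 2 + c 3

/-- The knot. -/
noncomputable def K : Finset Cell := (Box n).filter (fun c => get TK 1 1 (cd c).natAbs = 1)

end Cub.Ex
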