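import Pool.Agent.H33.CB.Ex.Run

/-!
# The third check, done by the kernel
-/

namespace Cub.Ex

private theorem OkZ_lo : allN 10 (fun k0 => allN 21 (fun k1 => runB k0 k1)) = true := by decide +kernel

private theorem OkZ_10 : allN 21 (fun k1 => runB 10 k1) = true := by decide +kernel

private theorem OkZ_11 : allN 21 (fun k1 => runB 11 k1) = true := by decide +kernel

private theorem OkZ_12 : allN 21 (fun k1 => runB 12 k1) = true := by decide +kernel

private theorem OkZ_13 : allN 21 (fun k1 => runB 13 k1) = true := by decide +kernel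

private theorem OkZ_14 : allN 21 (fun k1 => runB 14 k1) = true := by decide +kernel

private theorem OkZ_15 : allN 21 (fun k1 => runB 15 k1) = true := by decide +kernel

private theorem OkZ_16 : allN 21 (fun k1 => runB 16 k1) = true := by decide +kernel

private theorem OkZ_17 : allN 21 (fun k1 => runB 17 k1) = true := by decide +kernel

private theorem OkZ_18 : allN 21 (fun k1 => runB 18 k1) = true := by decide +kernel

private theorem OkZ_19 : allN 21 (fun k1 => runB 19 k1) = true := by decide +kernel

private theorem OkZ_20_0 : runB 20 0 = true := by decide +kernel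

private theorem OkZ_20_1 : runB 20 1 = true := by decide +kernel

private theorem OkZ_20_2 : runB 20 2 = true := by decide +kernel

private theorem OkZ_20_3 : runB 20 3 = true := by decide +kernel

private theorem OkZ_20_4 : runB 20 4 = true := by decide +kernel

private theorem OkZ_20_5 : runB 20 5 = true := by decide +kernel

private theorem OkZ_20_6 : runB 20 6 = true := by decide +kernel

private theorem OkZ_20_7 : runB 20 7 = true := by decide +kernel

private theorem OkZ_20_8 : runB 20 8 = true := by decide +kernel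

private theorem OkZ_20_9 : runB 20 9 = true := by decide +kernel

private theorem OkZ_20_10 : runB 20 10 = true := by decide +kernel

private theorem OkZ_20_11 : runB 20 11 = true := by decide +kernel

private theorem OkZ_20_12 : runB 20 12 = true := by decide +kernel

private theorem OkZ_20_13 : runB 20 13 = true := by decide +kernel

private theorem OkZ_20_14 : runB 20 14 = true := by decide +kernel

private theorem OkZ_20_15 : runB 20 15 = true := by decide +kernel

private theorem OkZ_20_16 : runB 20 16 = true := by decide +kernel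

private theorem OkZ_20_17 : runB 20 17 = true := by decide +kernel

private theorem OkZ_20_18 : runB 20 18 = true := by decide +kernel

private theorem OkZ_20_19 : runB 20 19 = true := by decide +kernel

private theorem OkZ_20_20 : runB 20 20 = true := by decide +kernel

theorem runZ_ok : runZ = true := by
  refine runZ_of OkZ_lo ?_ ?_
  · intro k0 h1 h2
    have h : k0 = 10 ∨ k0 = 11 ∨ k0 = 12 ∨ k0 = 13 ∨ k0 = 14 ∨ k0 = 15 ∨ k0 = 16 ∨ k0 = 17 ∨ k0 = 18 ∨ k0 = 19 := by omega
    rcases h with rfl | rfl | rfl | rfl | rfl | rfl | rfl | rfl | rfl | rfl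
    · exact OkZ_10
    · exact OkZ_11
    · exact OkZ_12
    · exact OkZ_13
    · exact OkZ_14
    · exact OkZ_15
    · exact OkZ_16
    · exact OkZ_17
    · exact OkZ_18
    · exact OkZ_19
  · intro k1 h1
    have h : k1 = 0 ∨ k1 = 1 ∨ k1 = 2 ∨ k1 = 3 ∨ k1 = 4 ∨ k1 = 5 ∨ k1 = 6 ∨ k1 = 7 ∨ k1 = 8 ∨ k1 = 9 ∨
      k1 = 10 ∨ k1 = 11 ∨ k1 = 12 ∨ k1 = 13 ∨ k1 = 14 ∨ k1 = 15 ∨ k1 = 16 ∨ k1 = 17 ∨ k1 = 18 ∨ k1 = 19 ∨ k1 = 20 := by omega
    rcases h with rfl | rfl | rfl | rfl | rfl | rfl | rfl | rfl | rfl | rfl | rfl | rfl | rfl | rfl | rfl | rfl | rfl | rfl | rfl | rfl | rfl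
    · exact OkZ_20_0
    · exact OkZ_20_1
    · exact OkZ_20_2
    · exact OkZ_20_3
    · exact OkZ_20_4
    · exact OkZ_20_5
    · exact OkZ_20_6
    · exact OkZ_20_7
    · exact OkZ_20_8
    · exact OkZ_20_9
    · exact OkZ_20_10
    · exact OkZ_20_11
    · exact OkZ_20_12
    · exact OkZ_20_13
    · exact OkZ_20_14
    · exact OkZ_20_15
    · exact OkZ_20_16
    · exact OkZ_20_17
    · exact OkZ_20_18
    · exact OkZ_20_19
    · exact OkZ_20_20

end Cub.Ex
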