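import Pool.Agent.H33.CB.Ex.OkM
import Pool.Agent.H33.CB.Ex.OkR
import Pool.Agent.H33.CB.Ex.OkZ
import Pool.Agent.H33.CB.Ex.AK

/-!
# The matching of the cells
-/

namespace Cub.Ex

open Cub

/-- The entry of the matching table. -/
def I (c : Cell) : ℕ := get TI 5 31 (cd c).natAbs

def Rk (c : Cell) : ℕ := get TR 13 8191 (cd c).natAbs

def Vc (c : Cell) : ℕ := get TV 30 1073741823 (cd c).natAbs

def nrm (c : Cell) (v : ℕ) : ℕ := if 0 < cd c then v else op v

/-- The direction of the partner. -/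
def dm (c : Cell) : ℕ := nrm c (if I c < 8 then I c else I c - 8)

/-- The partner. -/
def mt (c : Cell) : Cell := c + dv (dm c)

theorem I_neg (c : Cell) : I (-c) = I c := by
  unfold I
  rw [cd_neg, Int.natAbs_neg]

theorem Rk_neg (c : Cell) : Rk (-c) = Rk c := by
  unfold Rk
  rw [cd_neg, Int.natAbs_neg]

theorem Vc_neg (c : Cell) : Vc (-c) = Vc c := by
  unfold Vc
  rw [cd_neg, Int.natAbs_neg]

theorem inf_X {c : Cell} (hc : c ∈ Box n) : inf (X c) = I c := by
  unfold inf I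
  rw [ix_X hc]

theorem rk_X {c : Cell} (hc : c ∈ Box n) : rk (X c) = Rk c := by
  unfold rk Rk
  rw [ix_X hc]

theorem Vx_X {c : Cell} (hc : c ∈ Box n) : Vx (X c) = Vc c := by
  unfold Vx Vc
  rw [ix_X hc]

theorem nd_X {c : Cell} (hc : c ∈ Box n) (v : ℕ) : nd (X c) v = nrm c v := by
  unfold nd nrm
  rw [blt_X hc]
  by_cases h : 0 < cd c
  · rw [decide_eq_true h, cond_true, if_pos h]
  · rw [decide_eq_false h, cond_false, if_neg h]

theorem nrm_neg {c : Cell} (h0 : cd c ≠ 0) {v : ℕ} (hv : v < 8) : nrm (-c) v = op (nrm c v) := by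
  unfold nrm
  rw [cd_neg]
  by_cases h : 0 < cd c
  · rw [if_neg (by omega), if_pos h]
  · rw [if_pos (by omega), if_neg h, op_op hv]

theorem nrm_nrm {c : Cell} {v : ℕ} (hv : v < 8) : nrm c (nrm c v) = v := by
  unfold nrm
  split
  · rfl
  · exact op_op hv

theorem nrm_lt {c : Cell} {v : ℕ} (hv : v < 8) : nrm c v < 8 := by
  unfold nrm
  split
  · exact hv
  · exact op_lt

theorem X_inj {c d : Cell} (hc : c ∈ Box n) (hd : d ∈ Box n) (h : X c = X d) : c = d := by
  have h1 := X_cast hc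
  have h2 := X_cast hd
  have h3 : cd c = cd d := by omega
  obtain ⟨a0, a1, a2, a3⟩ := box_iff.1 hc
  obtain ⟨b0, b1, b2, b3⟩ := box_iff.1 hd
  unfold cd at h3
  have e0 : c 0 = d 0 := by omega
  have e1 : c 1 = d 1 := by omega
  have e2 : c 2 = d 2 := by omega
  have e3 : c 3 = d 3 := by omega
  funext i
  fin_cases i
  · exact e0
  · exact e1
  · exact e2
  · exact e3

theorem pos_iff {c : Cell} (hc : c ∈ Box n) : Pos c ↔ 0 < cd c := by
  obtain ⟨a0, a1, a2, a3⟩ := box_iff.1 hc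
  unfold Pos cd
  constructor
  · rintro ⟨i, hi, hj⟩
    fin_cases i
    · simp at hi
      omega
    · have h0 := hj 0 (by decide)
      simp at hi
      omega
    · have h0 := hj 0 (by decide)
      have h1 := hj 1 (by decide)
      simp at hi
      omega
    · have h0 := hj 0 (by decide)
      have h1 := hj 1 (by decide)
      have h2 := hj 2 (by decide)
      simp at hi
      omega
  · intro h
    by_cases h0 : c 0 = 0
    · by_cases h1 : c 1 = 0
      · by_cases h2 : c 2 = 0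
        · refine ⟨3, by omega, ?_⟩
          intro j hj
          fin_cases j
          · exact h0
          · exact h1
          · exact h2
          · exact absurd hj (by decide)
        · refine ⟨2, by omega, ?_⟩
          intro j hj
          fin_cases j
          · exact h0
          · exact h1
          · exact absurd hj (by decide)
          · exact absurd hj (by decide)
      · refine ⟨1, by omega, ?_⟩
        intro j hj
        fin_cases j
        · exact h0
        · exact absurd hj (by decide)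
        · exact absurd hj (by decide)
        · exact absurd hj (by decide)
    · refine ⟨0, by omega, ?_⟩
      intro j hj
      exact absurd hj (by fin_cases j <;> decide)

theorem mt_neg {c : Cell} (h0 : cd c ≠ 0) (h16 : I c < 16) : mt (-c) = - mt c := by
  unfold mt dm
  rw [I_neg]
  have hv : (if I c < 8 then I c else I c - 8) < 8 := by split <;> omega
  rw [nrm_neg h0 hv, dv_op (nrm_lt hv)]
  abel

/-- The neighbour in direction `d` is in the box. -/
theorem rng_box {c : Cell} (hc : c ∈ Box n) {d : ℕ} (hd : d < 8)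
    (h : rng (q c 0) (q c 1) (q c 2) (q c 3) d = true) : c + dv d ∈ Box n := by
  obtain ⟨a0, a1, a2, a3⟩ := box_iff.1 hc
  rw [box_iff]
  interval_cases d <;> simp only [rng, Nat.blt_eq, q] at h <;> simp [dv, e] <;> omega

theorem exO_bd {c : Cell} (hc : c ∈ Box n) {d : ℕ} (hd : d < 8)
    (hr : rng (q c 0) (q c 1) (q c 2) (q c 3) d = true)
    (h : exO (q c 0) (q c 1) (q c 2) (q c 3) d = true) : c + dv d ∈ bd n := by
  have hb := rng_box hc hd hr
  rw [mem_bd']
  refine ⟨hb, ?_⟩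
  obtain ⟨a0, a1, a2, a3⟩ := box_iff.1 hc
  clear hr
  interval_cases d <;> simp only [exO, exA, exB, Bool.or_eq_true, Nat.beq_eq, q] at h <;>
    simp [isbd, exA, exB, q, dv, e] <;> omega

theorem A0_facet {c : Cell} (hc : c ∈ A0) {d : ℕ} (hd : d < 8) (ho : c (ax d) % 2 = 1)
    (hk : c + dv d ∉ K) : c + dv d ∈ A0 := by
  refine mem_A0.2 ⟨?_, hk⟩
  refine isComplex_bd n c (mem_A0.1 hc).1 _ ?_
  obtain ⟨s, hs, hds⟩ := dv_eq hd
  refine (le_of_inc (inc_ne.2 ⟨ax d, ho, ?_⟩)).1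
  rw [hds]
  rcases hs with rfl | rfl
  · left; simp
  · right; simp [sub_eq_add_neg]

/-- The critical cells. -/
def crit : ℕ → Cell
  | 0 => ![10, -1, 3, -3]
  | 1 => ![10, 0, 1, 1]
  | 2 => ![7, -10, 0, 1]
  | 3 => ![3, -3, 0, 6]
  | 4 => ![4, -2, 6, -3]
  | 5 => ![8, -3, -2, -6]
  | _ => 0

theorem crit_box {j : ℕ} (hj : j < 6) : crit j ∈ Box n := by
  rw [box_iff]
  interval_cases j <;> simp [crit]

theorem X_crit {j : ℕ} (hj : j < 6) : X (crit j) = ccode j := by
  interval_cases j <;> decide +kernel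

theorem crit_chk : ∀ j < 6, (isbd (q (crit j) 0) (q (crit j) 1) (q (crit j) 2) (q (crit j) 3) &&
    !(kb (X (crit j))) && decide (0 < cd (crit j)) && decide (I (crit j) = 16 + j) &&
    decide (Vc (crit j) = vcrit j)) = true := by decide +kernel

theorem crit_A0 {j : ℕ} (hj : j < 6) : crit j ∈ A0 := by
  have h := crit_chk j hj
  simp only [Bool.and_eq_true, decide_eq_true_eq, Bool.not_eq_true'] at h
  obtain ⟨⟨⟨⟨h1, h2⟩, -⟩, -⟩, -⟩ := h
  refine mem_A0.2 ⟨mem_bd'.2 ⟨crit_box hj, h1⟩, fun h3 => ?_⟩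
  rw [mem_K (crit_box hj), h2] at h3
  exact Bool.noConfusion h3

theorem crit_pos {j : ℕ} (hj : j < 6) : 0 < cd (crit j) := by
  have h := crit_chk j hj
  simp only [Bool.and_eq_true, decide_eq_true_eq, Bool.not_eq_true'] at h
  exact h.1.1.2

theorem I_crit {j : ℕ} (hj : j < 6) : I (crit j) = 16 + j := by
  have h := crit_chk j hj
  simp only [Bool.and_eq_true, decide_eq_true_eq, Bool.not_eq_true'] at h
  exact h.1.2

theorem Vc_crit {j : ℕ} (hj : j < 6) : Vc (crit j) = vcrit j := by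
  have h := crit_chk j hj
  simp only [Bool.and_eq_true, decide_eq_true_eq, Bool.not_eq_true'] at h
  exact h.2

/-- Critical cells with positive code. -/
theorem crit_of {c : Cell} (hc : c ∈ A0) (hp : 0 < cd c) (h : 16 ≤ I c) :
    ∃ j < 6, c = crit j := by
  have h1 := run_spec chkM_ok hc hp
  have hb := A0_box hc
  unfold chkM at h1
  rw [inf_X hb] at h1
  have e1 : Nat.blt (I c) 8 = false := by
    rw [Bool.eq_false_iff, ne_eq, Nat.blt_eq]
    omega
  have e2 : Nat.blt (I c) 16 = false := by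
    rw [Bool.eq_false_iff, ne_eq, Nat.blt_eq]
    omega
  rw [e1, cond_false, e2, cond_false] at h1
  unfold chkC at h1
  obtain ⟨h2, h3⟩ := and_true' h1
  obtain ⟨h4, -⟩ := and_true' h3
  rw [Nat.blt_eq] at h2
  rw [Nat.beq_eq] at h4
  refine ⟨_, h2, X_inj hb (crit_box h2) ?_⟩
  rw [X_crit h2, h4]

private theorem S_pos {c : Cell} (hc : c ∈ A0) (hp : 0 < cd c) (h : I c < 8) :
    c (ax (dm c)) % 2 = 1 ∧ mt c ∈ A0 ∧ I (mt c) = 8 + nrm (mt c) (op (dm c)) := by
  have h1 := run_spec chkM_ok hc hp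
  have hb := A0_box hc
  have hdm : dm c = I c := by
    unfold dm nrm
    rw [if_pos hp, if_pos h]
  unfold chkM at h1
  rw [inf_X hb] at h1
  have e1 : Nat.blt (I c) 8 = true := by
    rw [Nat.blt_eq]
    exact h
  rw [e1, cond_true] at h1
  unfold chkS at h1
  obtain ⟨h2, h3⟩ := and_true' h1
  obtain ⟨h4, h5⟩ := and_true' h3
  rw [← hdm] at h2 h4 h5
  have hd8 : dm c < 8 := by rw [hdm]; exact h
  have ho := (odd_kk hb hd8).1 h2
  have hfb := facet_box hb hd8 ho
  rw [← X_dv hb hd8] at h4 h5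
  rw [inf_X hfb, nd_X hfb, Nat.beq_eq] at h5
  refine ⟨ho, A0_facet hc hd8 ho fun h6 => ?_, h5⟩
  rw [mem_K hfb] at h6
  rw [h6] at h4
  exact Bool.noConfusion h4

private theorem T_pos {c : Cell} (hc : c ∈ A0) (hp : 0 < cd c) (h : 8 ≤ I c) (h' : I c < 16) :
    c (ax (dm c)) % 2 = 0 ∧ mt c ∈ A0 ∧ I (mt c) = nrm (mt c) (op (dm c)) ∧ Vc c = 0 := by
  have h1 := run_spec chkM_ok hc hp
  have hb := A0_box hc
  have hdm : dm c = I c - 8 := by
    unfold dm nrm
    rw [if_pos hp, if_neg (by omega)]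
  unfold chkM at h1
  rw [inf_X hb] at h1
  have e1 : Nat.blt (I c) 8 = false := by
    rw [Bool.eq_false_iff, ne_eq, Nat.blt_eq]
    omega
  have e2 : Nat.blt (I c) 16 = true := by
    rw [Nat.blt_eq]
    exact h'
  have e3 : Nat.sub (I c) 8 = dm c := by rw [hdm]; rfl
  rw [e1, cond_false, e2, cond_true, e3] at h1
  unfold chkT at h1
  obtain ⟨h2, h3⟩ := and_true' h1
  obtain ⟨h4, h5⟩ := and_true' h2
  obtain ⟨h6, h7⟩ := and_true' h5
  obtain ⟨h8, h9⟩ := and_true' h3
  have hd8 : dm c < 8 := by rw [hdm]; omega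
  have ho : c (ax (dm c)) % 2 = 0 := by
    by_contra hne
    have h10 := (odd_kk hb hd8).2 (by omega)
    rw [h10] at h4
    exact Bool.noConfusion h4
  have hcb := rng_box hb hd8 h6
  have hbd := exO_bd hb hd8 h6 h7
  rw [← X_dv hb hd8] at h8
  rw [inf_X hcb, nd_X hcb, Nat.beq_eq] at h8
  obtain ⟨h9, h10⟩ := and_true' h9
  rw [Vx_X hb, Nat.beq_eq] at h9
  rw [← X_dv hb hd8] at h10
  refine ⟨ho, mem_A0.2 ⟨hbd, fun h11 => ?_⟩, h8, h9⟩
  change c + dv (dm c) ∈ K at h11
  rw [mem_K hcb] at h11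
  rw [h11] at h10
  exact Bool.noConfusion h10

theorem dm_lt {c : Cell} (h : I c < 16) : dm c < 8 := by
  unfold dm
  refine nrm_lt ?_
  split <;> omega

theorem dm_neg {c : Cell} (h0 : cd c ≠ 0) (h16 : I c < 16) : dm (-c) = op (dm c) := by
  unfold dm
  rw [I_neg]
  have hv : (if I c < 8 then I c else I c - 8) < 8 := by split <;> omega
  rw [nrm_neg h0 hv]

private theorem S_all {c : Cell} (hc : c ∈ A0) (h : I c < 8) :
    c (ax (dm c)) % 2 = 1 ∧ mt c ∈ A0 ∧ I (mt c) = 8 + nrm (mt c) (op (dm c)) := by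
  rcases lt_or_gt_of_ne (A0_ne hc) with hp | hp
  · have h1 := S_pos (A0_neg hc) (by rw [cd_neg]; omega) (by rw [I_neg]; exact h)
    have hd := dm_lt (c := c) (by omega)
    rw [mt_neg (A0_ne hc) (by omega), dm_neg (A0_ne hc) (by omega), ax_op hd, op_op hd,
      I_neg] at h1
    obtain ⟨h2, h3, h4⟩ := h1
    have h5 := A0_neg h3
    rw [neg_neg] at h5
    refine ⟨?_, h5, ?_⟩
    · rw [Pi.neg_apply] at h2
      omega
    · rw [h4, nrm_neg (A0_ne h5) hd]
      congr 1
      unfold nrm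
      split
      · rfl
      · rw [op_op hd]
  · exact S_pos hc hp h

private theorem T_all {c : Cell} (hc : c ∈ A0) (h : 8 ≤ I c) (h' : I c < 16) :
    c (ax (dm c)) % 2 = 0 ∧ mt c ∈ A0 ∧ I (mt c) = nrm (mt c) (op (dm c)) ∧ Vc c = 0 := by
  rcases lt_or_gt_of_ne (A0_ne hc) with hp | hp
  · have h1 := T_pos (A0_neg hc) (by rw [cd_neg]; omega) (by rw [I_neg]; exact h)
      (by rw [I_neg]; exact h')
    have hd := dm_lt (c := c) (by omega)
    rw [mt_neg (A0_ne hc) (by omega), dm_neg (A0_ne hc) (by omega), ax_op hd, op_op hd,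
      I_neg, Vc_neg] at h1
    obtain ⟨h2, h3, h4, h5⟩ := h1
    have h6 := A0_neg h3
    rw [neg_neg] at h6
    refine ⟨?_, h6, ?_, h5⟩
    · rw [Pi.neg_apply] at h2
      omega
    · rw [h4, nrm_neg (A0_ne h6) hd]
      unfold nrm
      split
      · rfl
      · rw [op_op hd]
  · exact T_pos hc hp h h'

theorem mt_S {c : Cell} (hc : c ∈ A0) (h : I c < 8) :
    c (ax (dm c)) % 2 = 1 ∧ mt c ∈ A0 ∧ 8 ≤ I (mt c) ∧ I (mt c) < 16 ∧ mt (mt c) = c := by
  obtain ⟨h1, h2, h3⟩ := S_all hc h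
  have hd := dm_lt (c := c) (by omega)
  have h4 : nrm (mt c) (op (dm c)) < 8 := nrm_lt op_lt
  refine ⟨h1, h2, by omega, by omega, ?_⟩
  have h5 : dm (mt c) = op (dm c) := by
    unfold dm
    rw [if_neg (by omega)]
    have h6 : I (mt c) - 8 = nrm (mt c) (op (dm c)) := by omega
    rw [h6, nrm_nrm op_lt]
    rfl
  rw [mt, h5, dv_op hd, mt]
  abel

theorem mt_T {c : Cell} (hc : c ∈ A0) (h : 8 ≤ I c) (h' : I c < 16) :
    mt c ∈ A0 ∧ I (mt c) < 8 ∧ mt (mt c) = c ∧ Vc c = 0 := by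
  obtain ⟨h1, h2, h3, h0⟩ := T_all hc h h'
  have hd := dm_lt (c := c) h'
  have h4 : nrm (mt c) (op (dm c)) < 8 := nrm_lt op_lt
  refine ⟨h2, by omega, ?_, h0⟩
  have h5 : dm (mt c) = op (dm c) := by
    unfold dm
    rw [if_pos (by omega), h3, nrm_nrm op_lt]
    rfl
  rw [mt, h5, dv_op hd, mt]
  abel

private theorem rank_pos {c : Cell} (hc : c ∈ A0) (hp : 0 < cd c) (h : I c < 8) {d : ℕ}
    (hd : d < 8) (ho : c (ax d) % 2 = 1) (hA : c + dv d ∈ A0) (h8 : 8 ≤ I (c + dv d))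
    (h16 : I (c + dv d) < 16) : Rk (mt (c + dv d)) < Rk c ∨ mt (c + dv d) = c := by
  have h1 := run_spec chkR_ok hc hp
  have hb := A0_box hc
  have hfb := A0_box hA
  have o1 := (odd_kk hb hd).2 ho
  unfold chkR at h1
  rw [inf_X hb] at h1
  have e1 : Nat.blt (I c) 8 = true := by
    rw [Nat.blt_eq]
    exact h
  have h2 := imp_true h1 e1
  have h3 : chkR1 (X c) d = true := by
    obtain ⟨ha, hb'⟩ := and_true' h2
    obtain ⟨h01, h23⟩ := and_true' ha
    obtain ⟨h45, h67⟩ := and_true' hb'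
    clear h1 h2 ha hb'
    generalize q c 0 = k0 at *
    generalize q c 1 = k1 at *
    generalize q c 2 = k2 at *
    generalize q c 3 = k3 at *
    interval_cases d
    · exact (and_true' (imp_true h01 o1)).1
    · exact (and_true' (imp_true h01 o1)).2
    · exact (and_true' (imp_true h23 o1)).1
    · exact (and_true' (imp_true h23 o1)).2
    · exact (and_true' (imp_true h45 o1)).1
    · exact (and_true' (imp_true h45 o1)).2
    · exact (and_true' (imp_true h67 o1)).1
    · exact (and_true' (imp_true h67 o1)).2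
  clear h1 h2
  unfold chkR1 at h3
  rw [← X_dv hb hd] at h3
  have hkb : kb (X (c + dv d)) = false := by
    rw [Bool.eq_false_iff]
    exact fun h6 => (mem_A0.1 hA).2 ((mem_K hfb).2 h6)
  rw [hkb, Bool.false_or, inf_X hfb, nd_X hfb] at h3
  have e2 : and (Nat.ble 8 (I (c + dv d))) (Nat.blt (I (c + dv d)) 16) = true := by
    rw [Bool.and_eq_true, Nat.ble_eq, Nat.blt_eq]
    exact ⟨h8, h16⟩
  have h4 := imp_true h3 e2
  have e3 : nrm (c + dv d) (Nat.sub (I (c + dv d)) 8) = dm (c + dv d) := by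
    unfold dm
    rw [if_neg (by omega)]
    rfl
  rw [e3, ← X_dv hfb (dm_lt h16), Bool.or_eq_true, Nat.blt_eq, Nat.beq_eq] at h4
  have hmb : c + dv d + dv (dm (c + dv d)) ∈ Box n := A0_box (mt_T hA h8 h16).1
  rw [rk_X hmb, rk_X hb] at h4
  rcases h4 with h4 | h4
  · exact Or.inl h4
  · exact Or.inr (X_inj hmb hb h4)

theorem rank_all {c : Cell} (hc : c ∈ A0) (h : I c < 8) {f : Cell} (hf : inc c f ≠ 0)
    (hA : f ∈ A0) (h8 : 8 ≤ I f) (h16 : I f < 16) : Rk (mt f) < Rk c ∨ mt f = c := by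
  obtain ⟨i, hi, hif⟩ := inc_ne.1 hf
  obtain ⟨s, hs, hfs⟩ : ∃ s : ℤ, (s = 1 ∨ s = -1) ∧ f = c + s • e i := by
    rcases hif with h1 | h1
    · exact ⟨1, Or.inl rfl, by rw [h1]; simp⟩
    · exact ⟨-1, Or.inr rfl, by rw [h1]; simp [sub_eq_add_neg]⟩
  obtain ⟨d, hd, hds, hda⟩ := exists_dir i hs
  rw [hds] at hfs
  rw [← hda] at hi
  subst hfs
  rcases lt_or_gt_of_ne (A0_ne hc) with hp | hp
  · have e1 : -c + dv (op d) = -(c + dv d) := by rw [dv_op hd]; abel
    have h1 := rank_pos (c := -c) (A0_neg hc) (by rw [cd_neg]; omega) (by rw [I_neg]; exact h)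
      (d := op d) op_lt (by rw [ax_op hd, Pi.neg_apply]; omega) (by rw [e1]; exact A0_neg hA)
      (by rw [e1, I_neg]; exact h8) (by rw [e1, I_neg]; exact h16)
    rw [e1, mt_neg (A0_ne hA) h16, Rk_neg, Rk_neg] at h1
    rcases h1 with h1 | h1
    · exact Or.inl h1
    · exact Or.inr (neg_injective h1)
  · exact rank_pos hc hp h hd hi hA h8 h16

/-- The chains vanish outside of `A0`. -/
theorem Vc_zero {c : Cell} (hb : c ∈ Box n) (hA : c ∉ A0) : Vc c = 0 := by
  have key : ∀ c : Cell, c ∈ Box n → c ∉ A0 → 0 ≤ cd c → Vc c = 0 := by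
    intro c hb hA hp
    obtain ⟨h0, h1, h2, h3⟩ := q_lt hb
    have h4 := allN_spec (allN_spec (allN_spec (allN_spec runZ_ok _ h0) _ h1) _ h2) _ h3
    rw [code_q hb] at h4
    have hX := X_cast hb
    have h5 := imp_true h4 (by rw [Nat.blt_eq]; omega)
    unfold chkZ at h5
    rw [code_q hb, Vx_X hb, Bool.or_eq_true, Bool.and_eq_true, Nat.beq_eq] at h5
    rcases h5 with h5 | h5
    · exfalso
      refine hA (mem_A0.2 ⟨mem_bd'.2 ⟨hb, h5.1⟩, fun h6 => ?_⟩)
      rw [mem_K hb] at h6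
      rw [h6] at h5
      exact Bool.noConfusion h5.2
    · exact h5
  rcases le_or_gt 0 (cd c) with h | h
  · exact key c hb hA h
  · rw [← Vc_neg]
    refine key (-c) (box_neg hb) (fun h1 => hA ?_) (by rw [cd_neg]; omega)
    have := A0_neg h1
    rwa [neg_neg] at this

/-- The representative of a pair. -/
def rp (c : Cell) : Cell := if 0 < cd c then c else -c

theorem rp_or (c : Cell) : rp c = c ∨ rp c = -c := by
  unfold rp
  split
  · exact Or.inl rfl
  · exact Or.inr rfl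

theorem rp_mem {c : Cell} (hc : c ∈ A0) : rp c ∈ pos A0 := by
  have h0 := A0_ne hc
  unfold rp pos
  split
  · rename_i h
    exact Finset.mem_filter.2 ⟨hc, (pos_iff (A0_box hc)).2 h⟩
  · rename_i h
    exact Finset.mem_filter.2 ⟨A0_neg hc, (pos_iff (box_neg (A0_box hc))).2 (by rw [cd_neg]; omega)⟩

theorem mem_pos {c : Cell} : c ∈ pos A0 ↔ c ∈ A0 ∧ 0 < cd c := by
  unfold pos
  rw [Finset.mem_filter]
  exact and_congr_right fun h => pos_iff (A0_box h)

theorem rp_pos {c : Cell} (hc : 0 < cd c) : rp c = c := if_pos hc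

theorem rp_neg {c : Cell} (h0 : cd c ≠ 0) : rp (-c) = rp c := by
  unfold rp
  rw [cd_neg]
  by_cases h : 0 < cd c
  · rw [if_neg (by omega), if_pos h, neg_neg]
  · rw [if_pos (by omega), if_neg h]

theorem I_rp (c : Cell) : I (rp c) = I c := by
  rcases rp_or c with h | h <;> rw [h]
  exact I_neg c

theorem Rk_rp (c : Cell) : Rk (rp c) = Rk c := by
  rcases rp_or c with h | h <;> rw [h]
  exact Rk_neg c

end Cub.Ex
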