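import Pool.Agent.H33.CB.Ex.Run

/-!
# Flatness, checked by the kernel
-/

namespace Cub.Ex

private theorem OkF_lo : allN 10 (fun k0 => allN 21 (fun k1 => runA chkFlat k0 k1)) = true := by decide +kernel

private theorem OkF_10 : allN 21 (fun k1 => runA chkFlat 10 k1) = true := by decide +kernel

private theorem OkF_11 : allN 21 (fun k1 => runA chkFlat 11 k1) = true := by decide +kernel

private theorem OkF_12 : allN 21 (fun k1 => runA chkFlat 12 k1) = true := by decide +kernel

private theorem OkF_13 : allN 21 (fun k1 => runA chkFlat 13 k1) = true := by decide +kernel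

private theorem OkF_14 : allN 21 (fun k1 => runA chkFlat 14 k1) = true := by decide +kernel

private theorem OkF_15 : allN 21 (fun k1 => runA chkFlat 15 k1) = true := by decide +kernel

private theorem OkF_16 : allN 21 (fun k1 => runA chkFlat 16 k1) = true := by decide +kernel

private theorem OkF_17 : allN 21 (fun k1 => runA chkFlat 17 k1) = true := by decide +kernel

private theorem OkF_18 : allN 21 (fun k1 => runA chkFlat 18 k1) = true := by decide +kernel

private theorem OkF_19 : allN 21 (fun k1 => runA chkFlat 19 k1) = true := by decide +kernel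

private theorem OkF_20_0 : runA chkFlat 20 0 = true := by decide +kernel

private theorem OkF_20_1 : runA chkFlat 20 1 = true := by decide +kernel

private theorem OkF_20_2 : runA chkFlat 20 2 = true := by decide +kernel

private theorem OkF_20_3 : runA chkFlat 20 3 = true := by decide +kernel

private theorem OkF_20_4 : runA chkFlat 20 4 = true := by decide +kernel

private theorem OkF_20_5 : runA chkFlat 20 5 = true := by decide +kernel

private theorem OkF_20_6 : runA chkFlat 20 6 = true := by decide +kernel

private theorem OkF_20_7 : runA chkFlat 20 7 = true := by decide +kernel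

private theorem OkF_20_8 : runA chkFlat 20 8 = true := by decide +kernel

private theorem OkF_20_9 : runA chkFlat 20 9 = true := by decide +kernel

private theorem OkF_20_10 : runA chkFlat 20 10 = true := by decide +kernel

private theorem OkF_20_11 : runA chkFlat 20 11 = true := by decide +kernel

private theorem OkF_20_12 : runA chkFlat 20 12 = true := by decide +kernel

private theorem OkF_20_13 : runA chkFlat 20 13 = true := by decide +kernel

private theorem OkF_20_14 : runA chkFlat 20 14 = true := by decide +kernel

private theorem OkF_20_15 : runA chkFlat 20 15 = true := by decide +kernel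

private theorem OkF_20_16 : runA chkFlat 20 16 = true := by decide +kernel

private theorem OkF_20_17 : runA chkFlat 20 17 = true := by decide +kernel

private theorem OkF_20_18 : runA chkFlat 20 18 = true := by decide +kernel

private theorem OkF_20_19 : runA chkFlat 20 19 = true := by decide +kernel

private theorem OkF_20_20 : runA chkFlat 20 20 = true := by decide +kernel

theorem chkFlat_ok : run chkFlat = true := by
  refine run_of OkF_lo ?_ ?_
  · intro k0 h1 h2
    have h : k0 = 10 ∨ k0 = 11 ∨ k0 = 12 ∨ k0 = 13 ∨ k0 = 14 ∨ k0 = 15 ∨ k0 = 16 ∨ k0 = 17 ∨ k0 = 18 ∨ k0 = 19 := by omega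
    rcases h with rfl | rfl | rfl | rfl | rfl | rfl | rfl | rfl | rfl | rfl
    · exact OkF_10
    · exact OkF_11
    · exact OkF_12
    · exact OkF_13
    · exact OkF_14
    · exact OkF_15
    · exact OkF_16
    · exact OkF_17
    · exact OkF_18
    · exact OkF_19
  · intro k1 h1
    have h : k1 = 0 ∨ k1 = 1 ∨ k1 = 2 ∨ k1 = 3 ∨ k1 = 4 ∨ k1 = 5 ∨ k1 = 6 ∨ k1 = 7 ∨ k1 = 8 ∨ k1 = 9 ∨
      k1 = 10 ∨ k1 = 11 ∨ k1 = 12 ∨ k1 = 13 ∨ k1 = 14 ∨ k1 = 15 ∨ k1 = 16 ∨ k1 = 17 ∨ k1 = 18 ∨ k1 = 19 ∨ k1 = 20 := by omega
    rcases h with rfl | rfl | rfl | rfl | rfl | rfl | rfl | rfl | rfl | rfl | rfl | rfl | rfl | rfl | rfl | rfl | rfl | rfl | rfl | rfl | rfl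
    · exact OkF_20_0
    · exact OkF_20_1
    · exact OkF_20_2
    · exact OkF_20_3
    · exact OkF_20_4
    · exact OkF_20_5
    · exact OkF_20_6
    · exact OkF_20_7
    · exact OkF_20_8
    · exact OkF_20_9
    · exact OkF_20_10
    · exact OkF_20_11
    · exact OkF_20_12
    · exact OkF_20_13
    · exact OkF_20_14
    · exact OkF_20_15
    · exact OkF_20_16
    · exact OkF_20_17
    · exact OkF_20_18
    · exact OkF_20_19
    · exact OkF_20_20

end Cub.Ex
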