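import Pool.Agent.H33.CB.Ex.Ch
import Pool.Agent.H33.CB.Tri
import Pool.Agent.H33.CB.Two

/-!
# The parity of the length of the homology is one
-/

namespace Cub.Ex

open Cub

variable {R : Type} [CommRing R]

theorem isCx_E {ζ : R} (hζ : ζ ^ 2 + ζ + 1 = 0) (hK : IsComplex K) :
    IsCx (dq (dcoef ζ aK)) (pos A0) :=
  isCx_dq A0_sym (sec_pos A0_sym (fun h => A0_ne h (by simp [cd]))) (symM_dcoef symA_aK)
    (isCx_dcoef (cube hζ) (conv_sdiff (isComplex_bd n) hK) flat_aK)

/-- Two opposite cells are not both facets of the same cell of the boundary. -/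
theorem no_opp {s f : Cell} (hs : s ∈ bd n) (hf : inc s f ≠ 0) : inc s (-f) = 0 := by
  by_contra h
  have h1 := (le_of_inc hf).1
  have h2 := (le_of_inc h).1
  rw [mem_bd] at hs
  obtain ⟨-, i, hi⟩ := hs
  have hn : (1 : ℤ) ≤ (n i : ℤ) := by
    fin_cases i <;> simp [n]
  have e1 := h1 i
  have e2 := h2 i
  rw [Pi.neg_apply] at e2
  omega

theorem dcoef_zero (ζ : R) {s f : Cell} (h : inc s f = 0) : dcoef ζ aK s f = 0 := by
  unfold dcoef
  rw [h]
  simp

theorem zeta_unit {ζ : R} (hζ : ζ ^ 2 + ζ + 1 = 0) : IsUnit ζ :=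
  IsUnit.of_pow_eq_one (cube hζ) (by norm_num)

theorem dcoef_unit {ζ : R} (hζ : ζ ^ 2 + ζ + 1 = 0) {s f : Cell} (h : inc s f ≠ 0) :
    IsUnit (dcoef ζ aK s f) := by
  unfold dcoef
  refine IsUnit.mul ?_ ((zeta_unit hζ).pow _)
  rcases inc_val s f with h1 | h1 | h1
  · exact absurd h1 h
  · rw [h1]; simp
  · rw [h1]; simp

theorem inc_dv {c : Cell} {d : ℕ} (hd : d < 8) (ho : c (ax d) % 2 = 1) : inc c (c + dv d) ≠ 0 := by
  obtain ⟨s, hs, hds⟩ := dv_eq hd
  refine inc_ne.2 ⟨ax d, ho, ?_⟩
  rw [hds]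
  rcases hs with rfl | rfl
  · left; simp
  · right; simp [sub_eq_add_neg]

/-- The entry of the matched pair. -/
theorem unit_S {ζ : R} (hζ : ζ ^ 2 + ζ + 1 = 0) {c : Cell} (hc : c ∈ A0) (h : I c < 8) :
    IsUnit (dq (dcoef ζ aK) c (rp (mt c))) := by
  obtain ⟨ho, hmA, -, -, -⟩ := mt_S hc h
  have h1 : inc c (mt c) ≠ 0 := inc_dv (dm_lt (by omega)) ho
  have h2 := no_opp (mem_A0.1 hc).1 h1
  have h3 : dq (dcoef ζ aK) c (rp (mt c)) = dcoef ζ aK c (mt c) := by
    unfold dq
    rcases rp_or (mt c) with h4 | h4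
    · rw [h4, dcoef_zero ζ h2, add_zero]
    · rw [h4, neg_neg, dcoef_zero ζ h2, zero_add]
  rw [h3]
  exact dcoef_unit hζ h1

/-- The nonzero entries. -/
theorem entry_ne {ζ : R} {c b : Cell} (h : dq (dcoef ζ aK) c b ≠ 0) : inc c b ≠ 0 ∨ inc c (-b) ≠ 0 := by
  by_contra hno
  rw [not_or, not_not, not_not] at hno
  apply h
  unfold dq
  rw [dcoef_zero ζ hno.1, dcoef_zero ζ hno.2, add_zero]

/-- The set of sources. -/
noncomputable def src : Finset (Fin 6 ⊕ Cell) :=
  (Finset.univ : Finset (Fin 6)).disjSum ((pos A0).filter (fun c => I c < 8))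

/-- The matching of the cone. -/
def mm : Fin 6 ⊕ Cell → Fin 6 ⊕ Cell
  | .inl j => .inr (crit j)
  | .inr c => .inr (rp (mt c))

/-- The rank. -/
def rr : Fin 6 ⊕ Cell → ℕ
  | .inl _ => 0
  | .inr c => Rk c + 1

theorem slot_crit : ∀ j j' : Fin 6, dj j' = dj j →
    slot (sj j) (vcrit j') = if j' = j then (1, 0) else (0, 0) := by decide +kernel

theorem dim_crit : ∀ j : Fin 6, dim (crit j) = dj j := by decide +kernel

theorem P_crit (ζ : R) (j j' : Fin 6) : P ζ j (crit j') = if j' = j then 1 else 0 := by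
  have hA := crit_A0 j'.2
  by_cases hd : dim (crit j') = dj j
  · rw [P_in ζ j hA hd, Vc_crit j'.2, slot_crit j j' (by rw [← dim_crit, hd])]
    by_cases h : j' = j
    · rw [if_pos h, if_pos h]
      simp [emb]
    · rw [if_neg h, if_neg h]
      simp [emb]
  · rw [P_dim ζ j hd, if_neg]
    rintro rfl
    exact hd (dim_crit _)

theorem P_T (ζ : R) (j : Fin 6) {c : Cell} (h : Vc c = 0) : P ζ j c = 0 := by
  unfold P
  rw [h, slot_zero, emb_zero]
  simp

theorem mem_src {x : Fin 6 ⊕ Cell} : x ∈ src ↔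
    (∃ j, x = .inl j) ∨ ∃ c, x = .inr c ∧ c ∈ pos A0 ∧ I c < 8 := by
  unfold src
  rcases x with j | c
  · simp
  · simp

/-- The cone of the critical chains is acyclic. -/
theorem acy_P {ζ : R} (hζ : ζ ^ 2 + ζ + 1 = 0) (hDp : IsCx (Dp ζ) Finset.univ)
    (hK : IsComplex K) :
    Acy (cone (Dp ζ) (dq (dcoef ζ aK)) (P ζ)) (coneSet Finset.univ (pos A0)) := by
  have hcx := isCx_cone hDp (isCx_E hζ hK) (chain_map hζ)
  refine acy_tri hcx (S := src) ?_ mm rr ?_ ?_ ?_
  · intro x hx
    unfold coneSet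
    rcases mem_src.1 hx with ⟨j, rfl⟩ | ⟨c, rfl, hc, -⟩
    · simp
    · simpa using hc
  · intro x hx
    rcases mem_src.1 hx with ⟨j, rfl⟩ | ⟨c, rfl, hc, h8⟩
    · refine ⟨?_, ?_, ?_⟩
      · unfold coneSet mm
        simpa using mem_pos.2 ⟨crit_A0 j.2, crit_pos j.2⟩
      · intro h
        rcases mem_src.1 h with ⟨j', h'⟩ | ⟨c, h', -, h8⟩
        · exact absurd h' (by simp [mm])
        · have h9 : crit j = c := by simpa [mm] using h'
          rw [← h9, I_crit j.2] at h8
          omega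
      · show IsUnit (P ζ j (crit j))
        rw [P_crit, if_pos rfl]
        exact isUnit_one
    · have hcA := (mem_pos.1 hc).1
      obtain ⟨ho, hmA, hm8, hm16, -⟩ := mt_S hcA h8
      refine ⟨?_, ?_, ?_⟩
      · unfold coneSet mm
        simpa using rp_mem hmA
      · intro h
        rcases mem_src.1 h with ⟨j', h'⟩ | ⟨c', h', -, h8'⟩
        · exact absurd h' (by simp [mm])
        · have h9 : rp (mt c) = c' := by simpa [mm] using h'
          rw [← h9, I_rp] at h8'
          omega
      · exact unit_S hζ hcA h8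
  · intro x hx hxS
    unfold coneSet at hx
    rcases x with j | t
    · exact absurd (mem_src.2 (Or.inl ⟨j, rfl⟩)) hxS
    · have ht : t ∈ pos A0 := by simpa using hx
      obtain ⟨htA, htp⟩ := mem_pos.1 ht
      have h8 : 8 ≤ I t := by
        by_contra h
        exact hxS (mem_src.2 (Or.inr ⟨t, rfl, ht, by omega⟩))
      by_cases h16 : I t < 16
      · obtain ⟨hmA, hm8, hmm, -⟩ := mt_T htA h8 h16
        refine ⟨.inr (rp (mt t)), mem_src.2 (Or.inr ⟨_, rfl, rp_mem hmA, by rw [I_rp]; exact hm8⟩), ?_⟩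
        show Sum.inr (rp (mt (rp (mt t)))) = Sum.inr t
        congr 1
        rcases rp_or (mt t) with h | h
        · rw [h, hmm, rp_pos htp]
        · rw [h, mt_neg (A0_ne hmA) (by omega), hmm, rp_neg (A0_ne htA), rp_pos htp]
      · obtain ⟨j, hj, rfl⟩ := crit_of htA htp (by omega)
        exact ⟨.inl ⟨j, hj⟩, mem_src.2 (Or.inl ⟨_, rfl⟩), rfl⟩
  · intro x hx y hy hne
    rcases mem_src.1 hx with ⟨j, rfl⟩ | ⟨c, rfl, hc, h8⟩
    · rcases mem_src.1 hy with ⟨j', rfl⟩ | ⟨c', rfl, hc', h8'⟩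
      · left
        change P ζ j (crit j') ≠ 0 at hne
        rw [P_crit] at hne
        by_cases h : j' = j
        · rw [h]
        · exact absurd (if_neg h) hne
      · exfalso
        apply hne
        change P ζ j (rp (mt c')) = 0
        have hcA := (mem_pos.1 hc').1
        obtain ⟨ho, hmA, hm8, hm16, -⟩ := mt_S hcA h8'
        refine P_T ζ j ?_
        have : Vc (mt c') = 0 := (mt_T hmA hm8 hm16).2.2.2
        rcases rp_or (mt c') with h | h
        · rw [h, this]
        · rw [h, Vc_neg, this]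
    · rcases mem_src.1 hy with ⟨j', rfl⟩ | ⟨c', rfl, hc', h8'⟩
      · right
        simp [rr]
      · have hcA := (mem_pos.1 hc).1
        obtain ⟨hcA', hcp'⟩ := mem_pos.1 hc'
        obtain ⟨ho, hmA, hm8, hm16, hmm⟩ := mt_S hcA' h8'
        change dq (dcoef ζ aK) c (rp (mt c')) ≠ 0 at hne
        have hgen : ∀ f : Cell, (f = mt c' ∨ f = -mt c') → inc c f ≠ 0 →
            (Sum.inr c' : Fin 6 ⊕ Cell) = Sum.inr c ∨ rr (Sum.inr c') < rr (Sum.inr c) := by
          intro f hf hi
          have hfA : f ∈ A0 := by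
            rcases hf with rfl | rfl
            · exact hmA
            · exact A0_neg hmA
          have hfI : I f = I (mt c') := by
            rcases hf with rfl | rfl
            · rfl
            · exact I_neg _
          have hmf : mt f = c' ∨ mt f = -c' := by
            rcases hf with rfl | rfl
            · exact Or.inl hmm
            · rw [mt_neg (A0_ne hmA) hm16, hmm]
              exact Or.inr rfl
          have hr := rank_all hcA h8 hi hfA (by rw [hfI]; exact hm8) (by rw [hfI]; exact hm16)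
          rcases hr with hr | hr
          · right
            have : Rk (mt f) = Rk c' := by
              rcases hmf with h | h <;> rw [h]
              exact Rk_neg c'
            rw [this] at hr
            simpa [rr] using hr
          · rcases hmf with h | h
            · left
              rw [← h, hr]
            · exfalso
              have hcp := (mem_pos.1 hc).2
              rw [h] at hr
              rw [← hr, cd_neg] at hcp
              omega
        rcases entry_ne hne with hi | hi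
        · exact hgen _ (rp_or _) hi
        · refine hgen _ ?_ hi
          rcases rp_or (mt c') with h | h <;> rw [h]
          · exact Or.inr rfl
          · rw [neg_neg]
            exact Or.inl rfl

theorem isCx_Dp {ζ : R} (hζ : ζ ^ 2 + ζ + 1 = 0) : IsCx (Dp ζ) Finset.univ := by
  intro a _ c _
  rw [Fin.sum_univ_six]
  fin_cases a <;> fin_cases c <;> simp [Dp, dp, emb]
  all_goals first
    | linear_combination (0 : R) * hζ
    | linear_combination (-2 : R) * hζ

/-- The smallest complex. -/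
def Dz (R : Type) [CommRing R] (i j : Fin 2) : R := if i = 0 ∧ j = 1 then 2 else 0

/-- The inclusion of the smallest complex. -/
def Pz (R : Type) [CommRing R] (i : Fin 2) (j : Fin 6) : R :=
  if (i = 0 ∧ j = 3) ∨ (i = 1 ∧ j = 5) then 1 else 0

theorem isCx_Dz : IsCx (Dz R) Finset.univ := by
  intro a _ c _
  rw [Fin.sum_univ_two]
  fin_cases a <;> fin_cases c <;> simp [Dz]

theorem chain_z (ζ : R) : ∀ a ∈ (Finset.univ : Finset (Fin 2)), ∀ b ∈ (Finset.univ : Finset (Fin 6)),
    ∑ a' ∈ Finset.univ, Dz R a a' * Pz R a' b = ∑ b' ∈ Finset.univ, Pz R a b' * Dp ζ b' b := by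
  intro a _ b _
  rw [Fin.sum_univ_two, Fin.sum_univ_six]
  fin_cases a <;> fin_cases b <;> simp [Dz, Pz, Dp, dp, emb]

/-- The matching of the second cone. -/
def mz : Fin 2 ⊕ Fin 6 → Fin 2 ⊕ Fin 6
  | .inl i => .inr (if i = 0 then 3 else 5)
  | .inr j => .inr (if j = 0 then 1 else 4)

def rz : Fin 2 ⊕ Fin 6 → ℕ
  | .inl _ => 0
  | .inr _ => 1

def sz : Finset (Fin 2 ⊕ Fin 6) := {.inl 0, .inl 1, .inr 0, .inr 2}

theorem acy_z {ζ : R} (hR : Ring3 R ζ) :
    Acy (cone (Dz R) (Dp ζ) (Pz R)) (coneSet Finset.univ Finset.univ) := by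
  have hζ := hR.root
  have hcx := isCx_cone isCx_Dz (isCx_Dp hζ) (chain_z ζ)
  have hall : ∀ x : Fin 2 ⊕ Fin 6, x ∈ coneSet (Finset.univ : Finset (Fin 2))
      (Finset.univ : Finset (Fin 6)) := by
    intro x
    unfold coneSet
    rcases x with i | j <;> simp
  have u1 : IsUnit (Dp ζ 0 1) := by
    have h : Dp ζ 0 1 = -(1 - ζ) := by
      simp [Dp, dp, emb]
      ring
    rw [h]
    exact hR.unit.neg
  have u2 : IsUnit (Dp ζ 2 4) := by
    have h : Dp ζ 2 4 = -((1 + 2 * 2) * ζ) := by
      simp [Dp, dp, emb]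
      ring
    rw [h]
    exact ((hR.odd 2).mul (zeta_unit hζ)).neg
  refine acy_tri hcx (S := sz) (fun x _ => hall x) mz rz ?_ ?_ ?_
  · intro x hx
    refine ⟨hall _, ?_, ?_⟩
    · revert x
      decide
    · simp only [sz, Finset.mem_insert, Finset.mem_singleton] at hx
      rcases hx with rfl | rfl | rfl | rfl
      · simp [cone, mz, Pz]
      · simp [cone, mz, Pz]
      · exact u1
      · exact u2
  · decide
  · intro x hx y hy hne
    simp only [sz, Finset.mem_insert, Finset.mem_singleton] at hx hy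
    rcases hx with rfl | rfl | rfl | rfl <;> rcases hy with rfl | rfl | rfl | rfl <;>
      first
      | exact Or.inl rfl
      | exact Or.inr Nat.zero_lt_one
      | (exfalso; apply hne; simp [cone, mz, Pz, Dp, dp, emb])

/-- The parity is one. -/
theorem par_one {ζ : R} (hR : Ring3 R ζ) (hK : IsComplex K) :
    par (dq (dcoef ζ aK)) (pos A0) = 1 := by
  have hζ := hR.root
  rw [← (cone_par (isCx_Dp hζ) (isCx_E hζ hK) (chain_map hζ) (acy_P hζ (isCx_Dp hζ) hK)).2]
  rw [← (cone_par isCx_Dz (isCx_Dp hζ) (chain_z ζ) (acy_z hR)).2]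
  have h := (two_par hR (Dz R) 0 1 (by decide) 1 isUnit_one (by simp [Dz]) (by simp [Dz])
    (by simp [Dz]) (by simp [Dz])).2
  have hu : (Finset.univ : Finset (Fin 2)) = {0, 1} := rfl
  rw [hu]
  exact h

end Cub.Ex
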