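import Pool.Agent.H33.CB.Ex.Chk

/-!
# Slices of the checks over all cells
-/

namespace Cub.Ex

theorem allN_of {n : Nat} {f : Nat → Bool} (h : ∀ k, k < n → f k = true) : allN n f = true := by
  induction n with
  | zero => rfl
  | succ n ih =>
    have h1 : allN (n + 1) f = and (f n) (allN n f) := rfl
    rw [h1, h n (Nat.lt_succ_self n), ih (fun k hk => h k (Nat.lt_succ_of_lt hk))]
    rfl

theorem allN_get {n : Nat} {f : Nat → Bool} (h : allN n f = true) : ∀ k, k < n → f k = true := by
  induction n with
  | zero => intro k hk; exact absurd hk (Nat.not_lt_zero k)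
  | succ n ih =>
    have h1 : and (f n) (allN n f) = true := h
    intro k hk
    cases h2 : f n with
    | false =>
      rw [h2] at h1
      exact Bool.noConfusion h1
    | true =>
      cases h3 : allN n f with
      | false =>
        rw [h2, h3] at h1
        exact Bool.noConfusion h1
      | true =>
        rcases Nat.lt_or_ge k n with h4 | h4
        · exact ih h3 k h4
        · have h5 : k = n := by omega
          rw [h5]
          exact h2

/-- one row of `run f` -/
def runA (f : Nat → Nat → Nat → Nat → Nat → Bool) (k0 k1 : Nat) : Bool :=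
  allN 13 fun k2 => allN 13 fun k3 =>
    imp (and (and (Nat.blt 37264 (code k0 k1 k2 k3)) (isbd k0 k1 k2 k3)) (not (kb (code k0 k1 k2 k3))))
      (f k0 k1 k2 k3 (code k0 k1 k2 k3))

theorem run_of {f : Nat → Nat → Nat → Nat → Nat → Bool}
    (hlo : allN 10 (fun k0 => allN 21 (fun k1 => runA f k0 k1)) = true)
    (hk : ∀ k0, 10 ≤ k0 → k0 < 20 → allN 21 (fun k1 => runA f k0 k1) = true)
    (hh : ∀ k1, k1 < 21 → runA f 20 k1 = true) : run f = true := by
  refine allN_of (fun k0 h0 => ?_)
  rcases Nat.lt_or_ge k0 10 with h1 | h1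
  · exact allN_get hlo k0 h1
  · rcases Nat.lt_or_ge k0 20 with h2 | h2
    · exact hk k0 h1 h2
    · have h3 : k0 = 20 := by omega
      subst h3
      exact allN_of hh

/-- one row of `runZ` -/
def runB (k0 k1 : Nat) : Bool :=
  allN 13 fun k2 => allN 13 fun k3 =>
    imp (Nat.blt 37263 (code k0 k1 k2 k3)) (chkZ k0 k1 k2 k3)

theorem runZ_of
    (hlo : allN 10 (fun k0 => allN 21 (fun k1 => runB k0 k1)) = true)
    (hk : ∀ k0, 10 ≤ k0 → k0 < 20 → allN 21 (fun k1 => runB k0 k1) = true)
    (hh : ∀ k1, k1 < 21 → runB 20 k1 = true) : runZ = true := by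
  refine allN_of (fun k0 h0 => ?_)
  rcases Nat.lt_or_ge k0 10 with h1 | h1
  · exact allN_get hlo k0 h1
  · rcases Nat.lt_or_ge k0 20 with h2 | h2
    · exact hk k0 h1 h2
    · have h3 : k0 = 20 := by omega
      subst h3
      exact allN_of hh

end Cub.Ex
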