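import Pool.Agent.H33.CB.S7Main
import Pool.Agent.H33.CB.Ex.SData

/-!
# Kernel checks for the disc and the knot of the example (helper33)
-/

set_option maxRecDepth 100000

namespace Cub.Ex

/-- decoding of a list of directions -/
def sdec : Nat → Nat → List Nat
  | 0, _ => []
  | k + 1, x => bif Nat.beq x 0 then [] else
      get sdt 16 65535 (Nat.land x 15) :: sdec k (Nat.shiftRight x 4)

def svx (j0 j1 j2 j3 : Nat) : Nat :=
  Nat.add (Nat.add (Nat.add (Nat.mul j0 539) (Nat.mul j1 49)) (Nat.mul j2 7)) j3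

/-- the link at a vertex -/
def sL (j0 j1 j2 j3 : Nat) : List Nat := sdec 8 (get SL 32 4294967295 (svx j0 j1 j2 j3))

def sR (j0 j1 j2 j3 : Nat) : Nat := get SRD 8 255 (svx j0 j1 j2 j3)

def sR' (j0 j1 j2 j3 : Nat) : Nat := get SRK 8 255 (svx j0 j1 j2 j3)

theorem chk_cel : Chk.all4 23 23 15 15
    (Chk.celB 23 23 15 15 (Chk.tf 5175 225 15 SD) (Chk.tf 5175 225 15 SK)) = true := by
  decide +kernel

theorem chk_ver : Chk.all4 11 11 7 7 (Chk.verB 5175 225 15 smk SD SK sL) = true := by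
  decide +kernel

theorem chk_con : Chk.all4 11 11 7 7 (Chk.conB (Chk.tf 5175 225 15 SD) sR 0 5 3 4) = true := by
  decide +kernel

theorem chk_con' : Chk.all4 11 11 7 7 (Chk.conB (Chk.tf 5175 225 15 SK) sR' 0 0 1 3) = true := by
  decide +kernel

theorem chk_ra : Chk.tf 5175 225 15 SD (2 * 0 + 1) (2 * 5 + 1) (2 * 3 + 1) (2 * 4 + 1) = true := by
  decide +kernel

theorem chk_rb : Chk.tf 5175 225 15 SK (2 * 0 + 1) (2 * 0 + 1) (2 * 1 + 1) (2 * 3 + 1) = true := by
  decide +kernel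

theorem chk_ev : Chk.sum4 23 23 15 15 (Chk.evN (Chk.tf 5175 225 15 SD)) = 2095 := by
  decide +kernel

theorem chk_od : Chk.sum4 23 23 15 15 (Chk.odN (Chk.tf 5175 225 15 SD)) = 2094 := by
  decide +kernel

theorem chk_mask : Chk.all4 3 3 3 3
    (fun a b c d => Chk.bit smk (a * 5175 + b * 225 + c * 15 + d)) = true := by
  decide +kernel

end Cub.Ex
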