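import Pool.Agent.H33.CB.Ex.SChk
import Pool.Agent.H33.CB.Ex.Sem

/-!
# The knot of the example is freely `2`-periodic and slice (helper33)
-/

set_option maxRecDepth 100000

namespace Cub.Ex

theorem chk_K : Chk.all4 21 21 13 13 (fun k0 k1 k2 k3 =>
    Bool.xor (kb (code k0 k1 k2 k3)) (!(Chk.tf 5175 225 15 SK (k0 + 1) (k1 + 1)
      (k2 + 1) (k3 + 1)))) = true := by
  decide +kernel

private theorem SM_bool {a b : Bool} (h : Bool.xor a (!b) = true) : a = b := by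
  revert h
  cases a <;> cases b <;> decide

theorem wts : Chk.Wts n 5175 225 15 smk := by
  have n1 : n 1 = 5 := rfl
  have n2 : n 2 = 3 := rfl
  have n3 : n 3 = 3 := rfl
  refine ⟨?_, ?_, ?_, ?_⟩
  · intro a ha b hb
    rw [n2] at ha
    rw [n3] at hb
    omega
  · intro a ha y hy
    rw [n1] at ha
    omega
  · intro x0 x1 x2 x3 h0 h1 h2 h3 h
    push_cast at h
    omega
  · intro a ha b hb c hc d hd
    have h := (Chk.all4_iff _ _ _ _ _).1 chk_mask a ha b hb c hc d hd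
    rw [Chk.bit_eq] at h
    exact h

private theorem SM_kk {c : Cell} (hc : c ∈ Box n) : Chk.kk n c 0 = q c 0 + 1 ∧
    Chk.kk n c 1 = q c 1 + 1 ∧ Chk.kk n c 2 = q c 2 + 1 ∧ Chk.kk n c 3 = q c 3 + 1 := by
  obtain ⟨h0, h1, h2, h3⟩ := box_iff.1 hc
  have n0 : n 0 = 5 := rfl
  have n1 : n 1 = 5 := rfl
  have n2 : n 2 = 3 := rfl
  have n3 : n 3 = 3 := rfl
  unfold Chk.kk
  rw [n0, n1, n2, n3]
  simp only [q]
  push_cast
  omega

theorem ex_main : IsCurve (Chk.ofF n (Chk.tf 5175 225 15 SK)) ∧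
    Chk.ofF n (Chk.tf 5175 225 15 SK) ⊆ bd n ∧ Slice n (Chk.ofF n (Chk.tf 5175 225 15 SK)) :=
  Chk.main_sound (n := n) (r0 := 23) (r1 := 23) (r2 := 15) (r3 := 15) (s0 := 11) (s1 := 11)
    (s2 := 7) (s3 := 7) (mk := smk) (TD := SD) (L := sL) (R := sR) (R' := sR') (a0 := 0) (a1 := 5)
    (a2 := 3) (a3 := 4) (b0 := 0) (b1 := 0) (b2 := 1) (b3 := 3) rfl rfl rfl rfl rfl rfl rfl rfl wts
    ((Chk.all4_iff _ _ _ _ _).1 chk_cel) ((Chk.all4_iff _ _ _ _ _).1 chk_ver)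
    ((Chk.all4_iff _ _ _ _ _).1 chk_con) ((Chk.all4_iff _ _ _ _ _).1 chk_con')
    (by omega) (by omega) chk_ra chk_rb (by rw [chk_ev, chk_od])

private theorem SM_key {c : Cell} (hc : c ∈ Box n) : kb (code (q c 0) (q c 1) (q c 2) (q c 3))
    = Chk.tf 5175 225 15 SK (Chk.kk n c 0) (Chk.kk n c 1) (Chk.kk n c 2) (Chk.kk n c 3) := by
  obtain ⟨l0, l1, l2, l3⟩ := q_lt hc
  obtain ⟨e0, e1, e2, e3⟩ := SM_kk hc
  rw [e0, e1, e2, e3]
  exact SM_bool ((Chk.all4_iff _ _ _ _ _).1 chk_K _ l0 _ l1 _ l2 _ l3)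

private theorem SM_mem {c : Cell} (hc : c ∈ Box n) :
    c ∈ K ↔ c ∈ Chk.ofF n (Chk.tf 5175 225 15 SK) := by
  have h1 := mem_K hc
  have h2 := Chk.mem_ofF (n := n) (f := Chk.tf 5175 225 15 SK) (c := c)
  have h3 := SM_key hc
  have h5 : c ∈ Chk.XBox n := Finset.mem_of_subset (Chk.box_sub_xbox (n := n)) hc
  rw [code_q hc] at h3
  constructor
  · intro h
    exact h2.2 ⟨h5, h3.symm.trans (h1.1 h)⟩
  · intro h
    exact h1.2 (h3.trans (h2.1 h).2)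

theorem K_eq : K = Chk.ofF n (Chk.tf 5175 225 15 SK) :=
  Finset.ext fun _ => ⟨fun hc => (SM_mem (K_sub hc)).1 hc,
    fun hc => (SM_mem (Chk.mem_bd'.1 (ex_main.2.1 hc)).1).2 hc⟩

/-- **The knot `K` is a freely `2`-periodic knot.** -/
theorem K_periodic : IsPeriodicKnot n K := by
  refine ⟨?_, ?_, fun c hc => K_neg hc⟩
  · rw [K_eq]
    exact ex_main.1
  · rw [K_eq]
    exact ex_main.2.1

/-- **The knot `K` is slice.** -/
theorem K_slice : Slice n K := by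
  rw [K_eq]
  exact ex_main.2.2

end Cub.Ex
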